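import Pool.Agent.H90.GR.RelG
import Pool.Agent.H90.PR.Basis

/-!
# Relations between elements of number fields
-/

set_option autoImplicit false
set_option linter.unusedSectionVars false

open Finset
open scoped Pointwise

namespace Pool.Agent.H90.GR

lemma clear_span {S : Set ℝ} {x : ℝ} (hx : x ∈ Submodule.span ℚ S) :
    ∃ q : ℕ, 1 ≤ q ∧ (q : ℝ) * x ∈ AddSubgroup.closure S := by
  induction hx using Submodule.span_induction with
  | mem x hx => exact ⟨1, le_rfl, by rw [Nat.cast_one, one_mul]; exact AddSubgroup.subset_closure hx⟩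
  | zero => exact ⟨1, le_rfl, by rw [mul_zero]; exact AddSubgroup.zero_mem _⟩
  | add x y _ _ ihx ihy =>
    obtain ⟨q, hq, h1⟩ := ihx
    obtain ⟨q', hq', h2⟩ := ihy
    refine ⟨q * q', Nat.mul_pos hq hq', ?_⟩
    have e : ((q * q' : ℕ) : ℝ) * (x + y) = ((q' : ℤ) : ℝ) * ((q : ℝ) * x) +
        ((q : ℤ) : ℝ) * ((q' : ℝ) * y) := by push_cast; ring
    rw [e]
    exact AddSubgroup.add_mem _ (int_mul_mem h1 _) (int_mul_mem h2 _)
  | smul r x _ ih =>
    obtain ⟨q, hq, h1⟩ := ih
    refine ⟨r.den * q, Nat.mul_pos r.den_pos hq, ?_⟩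
    have h2 : ((r : ℚ) : ℝ) * (r.den : ℝ) = r.num := by exact_mod_cast Rat.mul_den_eq_num r
    have e : ((r.den * q : ℕ) : ℝ) * (r • x) = ((r.num : ℤ) : ℝ) * ((q : ℝ) * x) := by
      rw [Rat.smul_def]
      push_cast
      rw [← h2]
      ring
    rw [e]
    exact int_mul_mem h1 _

section
variable {ι κ : Type} [Fintype ι] [DecidableEq ι] [DecidableEq κ]

/-- a common denominator for the relations -/
theorem exists_RelG (z : ι → κ → ℝ) (G : ι → Finset κ)
    (h : ∀ φ : ι → κ, (∀ i, φ i ∈ G i) → ∏ i, z i (φ i) ∈ Submodule.span ℚ (PSet z G)) :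
    ∃ q : ℕ, 1 ≤ q ∧ RelG q z G := by
  have h1 : ∀ φ : ι → κ, ∃ q : ℕ, 1 ≤ q ∧ ((∀ i, φ i ∈ G i) →
      (q : ℝ) * ∏ i, z i (φ i) ∈ AddSubgroup.closure (PSet z G)) := by
    intro φ
    by_cases hφ : ∀ i, φ i ∈ G i
    · obtain ⟨q, hq, h2⟩ := clear_span (h φ hφ)
      exact ⟨q, hq, fun _ => h2⟩
    · exact ⟨1, le_rfl, fun h3 => absurd h3 hφ⟩
  choose Q hQ1 hQ2 using h1
  refine ⟨∏ φ ∈ Fintype.piFinset G, Q φ, Finset.one_le_prod' fun φ _ => hQ1 φ, fun φ hφ => ?_⟩
  have hmem : φ ∈ Fintype.piFinset G := Fintype.mem_piFinset.2 hφ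
  rw [← mul_prod_erase _ _ hmem]
  have e : ((Q φ * ∏ ψ ∈ (Fintype.piFinset G).erase φ, Q ψ : ℕ) : ℝ) * ∏ i, z i (φ i) =
      (((∏ ψ ∈ (Fintype.piFinset G).erase φ, Q ψ : ℕ) : ℤ) : ℝ) *
        ((Q φ : ℝ) * ∏ i, z i (φ i)) := by
    push_cast
    ring
  rw [e]
  exact int_mul_mem (hQ2 φ hφ) _

end

/-- the products of at most `m` of the numbers -/
def PM {κ : Type} (s m : ℕ) (α : κ → ℝ) : Set ℝ :=
  {x | ∃ I : Finset (Fin s), I.card ≤ m ∧ ∃ φ : Fin s → κ, x = ∏ i ∈ I, α (φ i)}

section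
variable {κ : Type} [DecidableEq κ] {α : κ → ℝ}

lemma PM_mul [Nonempty κ] {s m : ℕ} (hm : m < s) :
    PM s m α * ({1} ∪ Set.range α) ⊆ PM s (m + 1) α := by
  rintro x ⟨y, ⟨I, hI, φ, rfl⟩, w, hw, rfl⟩
  rcases hw with hw | ⟨j, rfl⟩
  · rw [Set.mem_singleton_iff] at hw
    subst hw
    exact ⟨I, by omega, φ, by simp⟩
  · obtain ⟨i', hi'⟩ : ∃ i', i' ∉ I := by
      by_contra hcon
      push Not at hcon
      have h1 : I = univ := eq_univ_iff_forall.2 hcon
      rw [h1, card_univ, Fintype.card_fin] at hI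
      omega
    refine ⟨insert i' I, by rw [card_insert_of_notMem hi']; omega, Function.update φ i' j, ?_⟩
    rw [prod_insert hi', Function.update_self]
    have h1 : ∏ i ∈ I, α (Function.update φ i' j i) = ∏ i ∈ I, α (φ i) := by
      refine prod_congr rfl fun i hi => ?_
      have hne : i ≠ i' := by
        rintro rfl
        exact hi' hi
      rw [Function.update_of_ne hne]
    rw [h1, mul_comm]

lemma pow_le_PM [Nonempty κ] {s : ℕ} (m : ℕ) (hm : m ≤ s) :
    (Submodule.span ℚ ({1} ∪ Set.range α)) ^ m ≤ Submodule.span ℚ (PM s m α) := by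
  induction m with
  | zero =>
    rw [pow_zero, Submodule.one_eq_span]
    apply Submodule.span_mono
    rintro x hx
    rw [Set.mem_singleton_iff] at hx
    subst hx
    exact ⟨∅, by simp, fun _ => Classical.arbitrary κ, by simp⟩
  | succ m ih =>
    rw [pow_succ]
    refine (mul_le_mul' (ih (by omega)) le_rfl).trans ?_
    rw [Submodule.span_mul_span]
    exact Submodule.span_mono (PM_mul (by omega))

end

/-- the powers of a finite dimensional space become stationary -/
theorem pow_stable (V K : Submodule ℚ ℝ) (hone : (1 : ℝ) ∈ V) [FiniteDimensional ℚ K]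
    (hVK : ∀ m, V ^ m ≤ K) (k s : ℕ) (hk : Module.finrank ℚ V = k + 1)
    (hs : Module.finrank ℚ K < k + s) (hs1 : 1 ≤ s) : V ^ s ≤ V ^ (s - 1) := by
  have hle : ∀ m, V ^ m ≤ V ^ (m + 1) := by
    intro m x hx
    rw [pow_succ]
    have := Submodule.mul_mem_mul hx hone
    rwa [mul_one] at this
  have hfd : ∀ m, FiniteDimensional ℚ (V ^ m : Submodule ℚ ℝ) := fun m =>
    Submodule.finiteDimensional_of_le (hVK m)
  by_contra hcon
  -- never stationary before
  have hstep : ∀ m, V ^ (m + 1) ≤ V ^ m → V ^ (m + 2) ≤ V ^ (m + 1) := by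
    intro m hm
    rw [pow_succ V (m + 1)]
    calc V ^ (m + 1) * V ≤ V ^ m * V := mul_le_mul' hm le_rfl
      _ = V ^ (m + 1) := (pow_succ _ _).symm
  have hnot : ∀ m, m + 1 ≤ s → ¬ V ^ (m + 1) ≤ V ^ m := by
    intro m hm h
    have h2 : ∀ j, V ^ (m + j + 1) ≤ V ^ (m + j) := by
      intro j
      induction j with
      | zero => exact h
      | succ j ih => exact hstep _ ih
    have h3 := h2 (s - 1 - m)
    rw [show m + (s - 1 - m) + 1 = s by omega, show m + (s - 1 - m) = s - 1 by omega] at h3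
    exact hcon h3
  have hdim : ∀ m, 1 ≤ m → m ≤ s → k + m ≤ Module.finrank ℚ (V ^ m : Submodule ℚ ℝ) := by
    intro m hm
    induction m, hm using Nat.le_induction with
    | base => intro _; rw [pow_one, hk]
    | succ m hm ih =>
      intro hms
      have h1 := ih (by omega)
      have h2 : V ^ m < V ^ (m + 1) := lt_of_le_of_ne (hle m) fun h => hnot m hms h.ge
      have h3 := Submodule.finrank_lt_finrank_of_lt h2
      omega
  have h1 := hdim s hs1 le_rfl
  have h2 := Submodule.finrank_mono (hVK s)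
  omega

/-- `s = D - k + 1` factors suffice for `k` numbers in a field of degree `D` -/
theorem rel_field (K : IntermediateField ℚ ℝ) [FiniteDimensional ℚ K] {k : ℕ} (hk1 : 1 ≤ k)
    (α : Fin k → ℝ) (hα : ∀ i, α i ∈ K)
    (hind : LinearIndependent ℚ (Fin.cons (1 : ℝ) α : Fin (k + 1) → ℝ)) (s : ℕ) (hs1 : 1 ≤ s)
    (hs : Module.finrank ℚ K < k + s) :
    ∃ q : ℕ, 1 ≤ q ∧ RelG q (fun (_ : Fin s) j => α j) (fun _ => (univ : Finset (Fin k))) := by
  have : Nonempty (Fin k) := ⟨⟨0, by omega⟩⟩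
  set V : Submodule ℚ ℝ := Submodule.span ℚ ({1} ∪ Set.range α) with hV
  have hrange : ({1} ∪ Set.range α : Set ℝ) = Set.range (Fin.cons (1 : ℝ) α : Fin (k + 1) → ℝ) := by
    rw [Fin.range_cons]
    rfl
  set K' : Submodule ℚ ℝ := Subalgebra.toSubmodule K.toSubalgebra with hK'
  have hfdK : FiniteDimensional ℚ K' := inferInstanceAs (FiniteDimensional ℚ K)
  have hVK1 : V ≤ K' := by
    rw [hV, Submodule.span_le]
    rintro x (hx | ⟨i, rfl⟩)
    · rw [Set.mem_singleton_iff] at hx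
      subst hx
      exact K.one_mem
    · exact hα i
  have hVK : ∀ m, V ^ m ≤ K' := by
    intro m
    induction m with
    | zero =>
      rw [pow_zero, Submodule.one_le]
      exact K.one_mem
    | succ m ih =>
      rw [pow_succ, Submodule.mul_le]
      intro x hx y hy
      exact K.mul_mem (ih hx) (hVK1 hy)
  have hdim : Module.finrank ℚ V = k + 1 := by
    rw [hV, hrange, finrank_span_eq_card hind, Fintype.card_fin]
  have hst := pow_stable V K' (Submodule.subset_span (Or.inl rfl)) hVK k s hdim hs hs1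
  apply exists_RelG
  intro φ _
  have h1 : ∏ i, α (φ i) ∈ V ^ s := by
    have h2 : ∀ I : Finset (Fin s), ∏ i ∈ I, α (φ i) ∈ V ^ I.card := by
      intro I
      induction I using Finset.induction_on with
      | empty => rw [prod_empty, card_empty, pow_zero]; exact Submodule.one_le.1 le_rfl
      | insert a I ha ih =>
        rw [prod_insert ha, card_insert_of_notMem ha, pow_succ, mul_comm (α (φ a))]
        exact Submodule.mul_mem_mul ih
          (Submodule.subset_span (show α (φ a) ∈ ({1} ∪ Set.range α : Set ℝ) from Or.inr ⟨φ a, rfl⟩))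
    have h3 := h2 univ
    rwa [card_univ, Fintype.card_fin] at h3
  have h2 := pow_le_PM (α := α) (s := s) (s - 1) (by omega) (hst h1)
  refine Submodule.span_mono ?_ h2
  rintro x ⟨I, hI, φ', rfl⟩
  refine ⟨I, ?_, φ', fun i _ => mem_univ _, rfl⟩
  rintro rfl
  rw [card_univ, Fintype.card_fin] at hI
  omega

/-- two groups which together with `1` span the field -/
theorem rel_cover (K : IntermediateField ℚ ℝ) {κ : Type} [DecidableEq κ] (α : κ → ℝ)
    (hα : ∀ i, α i ∈ K) (A B : Finset κ)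
    (hspan : ∀ x ∈ K, x ∈ Submodule.span ℚ ({1} ∪ α '' (A ∪ B : Finset κ))) (hA : A.Nonempty) :
    ∃ q : ℕ, 1 ≤ q ∧ RelG q (fun (_ : Fin 2) j => α j) ![A, B] := by
  apply exists_RelG
  intro φ _
  have h1 : ∏ i, α (φ i) ∈ K := K.prod_mem fun i _ => hα _
  refine Submodule.span_mono ?_ (hspan _ h1)
  rintro x (hx | ⟨j, hj, rfl⟩)
  · rw [Set.mem_singleton_iff] at hx
    subst hx
    obtain ⟨a, ha⟩ := hA
    exact ⟨∅, by decide, fun _ => a, fun i hi => absurd hi (notMem_empty i), by simp⟩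
  · rw [mem_coe, mem_union] at hj
    rcases hj with hj | hj
    · refine ⟨{0}, by decide, fun _ => j, fun i hi => ?_, by simp⟩
      rw [mem_singleton] at hi
      subst hi
      exact hj
    · refine ⟨{1}, by decide, fun _ => j, fun i hi => ?_, by simp⟩
      rw [mem_singleton] at hi
      subst hi
      exact hj

end Pool.Agent.H90.GR
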