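import Mathlib

/-!
# Relations between products of numbers from several groups
-/

set_option autoImplicit false
set_option linter.unusedSectionVars false

open Finset

namespace Pool.Agent.H90.GR

section
variable {ι κ : Type} [Fintype ι] [DecidableEq ι] [DecidableEq κ]

/-- products of fewer numbers -/
def PSet (z : ι → κ → ℝ) (G : ι → Finset κ) : Set ℝ :=
  {x | ∃ I : Finset ι, I ≠ univ ∧ ∃ φ : ι → κ, (∀ i ∈ I, φ i ∈ G i) ∧ x = ∏ i ∈ I, z i (φ i)}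

/-- `q` times each full product is a combination of products of fewer numbers -/
def RelG (q : ℕ) (z : ι → κ → ℝ) (G : ι → Finset κ) : Prop :=
  ∀ φ : ι → κ, (∀ i, φ i ∈ G i) →
    (q : ℝ) * ∏ i, z i (φ i) ∈ AddSubgroup.closure (PSet z G)

variable {G : ι → Finset κ}

lemma int_mul_mem {S : AddSubgroup ℝ} {x : ℝ} (hx : x ∈ S) (m : ℤ) : (m : ℝ) * x ∈ S := by
  rw [← zsmul_eq_mul]
  exact S.zsmul_mem hx m

lemma mem_P {z : ι → κ → ℝ} {I : Finset ι} (hI : I ≠ univ) {φ : ι → κ} (hφ : ∀ i ∈ I, φ i ∈ G i) :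
    ∏ i ∈ I, z i (φ i) ∈ AddSubgroup.closure (PSet z G) :=
  AddSubgroup.subset_closure ⟨I, hI, φ, hφ, rfl⟩

lemma mul_closure {S S' : Set ℝ} (c : ℝ) (h : ∀ x ∈ S, c * x ∈ AddSubgroup.closure S') {x : ℝ}
    (hx : x ∈ AddSubgroup.closure S) : c * x ∈ AddSubgroup.closure S' := by
  have h1 : AddSubgroup.closure S ≤ (AddSubgroup.closure S').comap (AddMonoidHom.mulLeft c) :=
    (AddSubgroup.closure_le _).2 fun x hx => h x hx
  exact h1 hx

lemma RelG.sign {q : ℕ} {z : ι → κ → ℝ} (h : RelG q z G) (σ : ι → κ → ℤ)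
    (hσ : ∀ i j, σ i j = 1 ∨ σ i j = -1) : RelG q (fun i j => (σ i j : ℝ) * z i j) G := by
  have hσσ : ∀ i j, (σ i j : ℝ) * (σ i j : ℝ) = 1 := fun i j => by
    rcases hσ i j with h | h <;> rw [h] <;> norm_num
  have hle : AddSubgroup.closure (PSet z G) ≤
      AddSubgroup.closure (PSet (fun i j => (σ i j : ℝ) * z i j) G) := by
    rw [AddSubgroup.closure_le]
    rintro x ⟨I, hI, φ, hφ, rfl⟩
    have h1 : ∏ i ∈ I, z i (φ i) = ((∏ i ∈ I, σ i (φ i) : ℤ) : ℝ) *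
        ∏ i ∈ I, ((σ i (φ i) : ℝ) * z i (φ i)) := by
      push_cast
      rw [← prod_mul_distrib]
      refine prod_congr rfl fun i _ => ?_
      rw [← mul_assoc, hσσ, one_mul]
    rw [h1]
    exact int_mul_mem (mem_P (z := fun i j => (σ i j : ℝ) * z i j) hI hφ) _
  intro φ hφ
  have h1 : (q : ℝ) * ∏ i, ((σ i (φ i) : ℝ) * z i (φ i)) = ((∏ i, σ i (φ i) : ℤ) : ℝ) *
      ((q : ℝ) * ∏ i, z i (φ i)) := by
    rw [prod_mul_distrib]
    push_cast
    ring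
  rw [h1]
  exact int_mul_mem (hle (h φ hφ)) _

lemma RelG.scale {q : ℕ} {z : ι → κ → ℝ} (h : RelG q z G) (m : ι → ℤ) :
    RelG q (fun i j => (m i : ℝ) * z i j) G := by
  intro φ hφ
  have h1 : (q : ℝ) * ∏ i, ((m i : ℝ) * z i (φ i)) = (∏ i, (m i : ℝ)) *
      ((q : ℝ) * ∏ i, z i (φ i)) := by
    rw [prod_mul_distrib]
    ring
  rw [h1]
  refine mul_closure _ ?_ (h φ hφ)
  rintro x ⟨I, hI, φ', hφ', rfl⟩
  have h2 : (∏ i, (m i : ℝ)) * ∏ i ∈ I, z i (φ' i) = ((∏ i ∈ univ \ I, m i : ℤ) : ℝ) *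
      ∏ i ∈ I, ((m i : ℝ) * z i (φ' i)) := by
    have h3 : ∏ i, (m i : ℝ) = (∏ i ∈ univ \ I, (m i : ℝ)) * ∏ i ∈ I, (m i : ℝ) :=
      (prod_sdiff (subset_univ I)).symm
    rw [h3, prod_mul_distrib]
    push_cast
    ring
  rw [h2]
  exact int_mul_mem (mem_P (z := fun i j => (m i : ℝ) * z i j) hI hφ') _

lemma RelG.shift {q : ℕ} {z u : ι → κ → ℝ} (h : RelG q z G) (β : ι → κ → ℤ)
    (hz : ∀ i j, z i j = u i j + β i j) : RelG q u G := by
  have hexp : ∀ (I : Finset ι) (φ : ι → κ), ∏ i ∈ I, z i (φ i) =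
      ∑ J ∈ I.powerset, ((∏ i ∈ I \ J, β i (φ i) : ℤ) : ℝ) * ∏ i ∈ J, u i (φ i) := by
    intro I φ
    calc ∏ i ∈ I, z i (φ i) = ∏ i ∈ I, (u i (φ i) + (β i (φ i) : ℝ)) :=
          prod_congr rfl fun i _ => hz i _
      _ = ∑ J ∈ I.powerset, (∏ i ∈ J, u i (φ i)) * ∏ i ∈ I \ J, (β i (φ i) : ℝ) := prod_add _ _ _
      _ = _ := by
          refine sum_congr rfl fun J _ => ?_
          push_cast
          ring
  have hmem : ∀ (J : Finset ι) (φ : ι → κ), J ≠ univ → (∀ i ∈ J, φ i ∈ G i) → ∀ c : ℤ,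
      (c : ℝ) * ∏ i ∈ J, u i (φ i) ∈ AddSubgroup.closure (PSet u G) := by
    intro J φ hJ hφ c
    exact int_mul_mem (mem_P hJ hφ) _
  have hle : AddSubgroup.closure (PSet z G) ≤ AddSubgroup.closure (PSet u G) := by
    rw [AddSubgroup.closure_le]
    rintro x ⟨I, hI, φ, hφ, rfl⟩
    rw [hexp]
    refine AddSubgroup.sum_mem _ fun J hJ => hmem J φ ?_ ?_ _
    · intro hJu
      rw [mem_powerset, hJu] at hJ
      exact hI (univ_subset_iff.1 hJ)
    · intro i hi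
      exact hφ i (mem_powerset.1 hJ hi)
  intro φ hφ
  have h1 : ∏ i, z i (φ i) - ∏ i, u i (φ i) ∈ AddSubgroup.closure (PSet u G) := by
    have e : ∏ i, z i (φ i) = ∏ i, u i (φ i) + ∑ J ∈ (univ : Finset ι).powerset.erase univ,
          ((∏ i ∈ univ \ J, β i (φ i) : ℤ) : ℝ) * ∏ i ∈ J, u i (φ i) := by
      rw [hexp univ φ, ← add_sum_erase _ _ (mem_powerset.2 (subset_univ (univ : Finset ι))),
        sdiff_self, bot_eq_empty, prod_empty, Int.cast_one, one_mul]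
    rw [e, add_sub_cancel_left]
    refine AddSubgroup.sum_mem _ fun J hJ => hmem J φ (ne_of_mem_erase hJ) (fun i _ => hφ i) _
  have h2 : (q : ℝ) * ∏ i, u i (φ i) = (q : ℝ) * ∏ i, z i (φ i) -
      ((q : ℤ) : ℝ) * (∏ i, z i (φ i) - ∏ i, u i (φ i)) := by
    push_cast
    ring
  rw [h2]
  exact AddSubgroup.sub_mem _ (hle (h φ hφ)) (int_mul_mem h1 _)

/-- the product of the sums -/
lemma RelG.sum {q : ℕ} {z : ι → κ → ℝ} (h : RelG q z G) :
    (q : ℝ) * ∏ i, ∑ j ∈ G i, z i j ∈ AddSubgroup.closure (PSet z G) := by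
  rw [prod_univ_sum, mul_sum]
  refine AddSubgroup.sum_mem _ fun φ hφ => h φ fun i => Fintype.mem_piFinset.1 hφ i

end

end Pool.Agent.H90.GR
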