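import Pool.Agent.H90.GR.Dom
import Pool.Agent.H90.GR.RelG
import Pool.Agent.H90.PR.Prod

/-!
# Exceptional places for products of sums
-/

set_option autoImplicit false
set_option linter.unusedSectionVars false

open Finset

namespace Pool.Agent.H90.GR

open Pool.Agent.H394R2.Ones Pool.Agent.H820R3.DG Pool.Agent.Helper161SP Pool.Agent.H90.PR

open PowerSeries (coeff)

lemma arith1 (R δ D C n : ℝ) (hR : R ≠ 0) (hC : C + 1 ≠ 0) (hD : D ≠ 0) :
    2 * R * (δ / (2 * D * (R * 2 * (C + 1))) * ((C + 1) * n)) = δ / (2 * D) * n := by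
  field_simp

lemma arith2 (δ D n : ℝ) (hD : D ≠ 0) : δ / D * n = δ / (2 * D) * n + δ / (2 * D) * n := by
  field_simp
  ring

lemma arith3 (δ D n : ℝ) (hD : D ≠ 0) : D * (δ / D * n) = δ * n := by
  field_simp

section
variable {b : ℕ} {ι κ : Type} [Fintype ι] [DecidableEq ι] [DecidableEq κ]

/-- the numbers and the groups -/
structure Data (y : ι → κ → ℝ) (G : ι → Finset κ) : Prop where
  ne : ∀ i, (G i).Nonempty
  y0 : ∀ i j, 0 < y i j
  y1 : ∀ i j, y i j < 1
  alg : ∀ i, ∀ j ∈ G i, IsAlgebraic ℚ (y i j)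
  irr : ∀ i, ∀ j ∈ G i, Irrational (y i j)

/-- the product of the sums of digit series -/
noncomputable def PF (b : ℕ) (y : ι → κ → ℝ) (G : ι → Finset κ) (I : Finset ι) : PowerSeries ℕ :=
  ∏ i ∈ I, FS b (y i) (G i)

noncomputable def PX (y : ι → κ → ℝ) (G : ι → Finset κ) (I : Finset ι) : ℝ :=
  ∏ i ∈ I, XS (y i) (G i)

noncomputable def TS (b : ℕ) (y : ι → κ → ℝ) (G : ι → Finset κ) (m : ℕ) : ℝ :=
  tl b (PF b y G univ) (PX y G univ) m

noncomputable def VS (b : ℕ) (y : ι → κ → ℝ) (G : ι → Finset κ) (i : ι) (m : ℕ) : ℝ :=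
  tl b (PF b y G (univ.erase i)) (PX y G (univ.erase i)) m

variable {y : ι → κ → ℝ} {G : ι → Finset κ}

lemma dm_PF (hb : 2 ≤ b) (H : Data y G) (I : Finset ι) :
    Dm b (PF b y G I) (PX y G I) (PF b y G I) (PX y G I) :=
  Dm.prod I fun i _ => Dm.refl (by
    obtain ⟨j, hj⟩ := H.ne i
    have h1 := le_XS (H.y0 i) hj
    have h2 := H.y0 i j
    linarith) (tl_FS_nonneg hb (H.y0 i) (H.y1 i))

lemma dm_one_PF (hb : 2 ≤ b) (H : Data y G) (I : Finset ι) :
    Dm b 1 1 (PF b y G I) (PX y G I) := by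
  have h := Dm.prod (b := b) (F := fun _ => 1) (x := fun _ => 1) (F' := fun i => FS b (y i) (G i))
    (x' := fun i => XS (y i) (G i)) I fun i _ => dm_one hb (H.y0 i) (H.y1 i) (H.ne i)
  rw [prod_const_one, prod_const_one] at h
  exact h

lemma PF_nonneg (hb : 2 ≤ b) (H : Data y G) (I : Finset ι) (n : ℕ) :
    0 ≤ tl b (PF b y G I) (PX y G I) n := (dm_PF hb H I).nn n

lemma VS_nonneg (hb : 2 ≤ b) (H : Data y G) (i : ι) (n : ℕ) : 0 ≤ VS b y G i n :=
  PF_nonneg hb H _ n

lemma TS_nonneg (hb : 2 ≤ b) (H : Data y G) (n : ℕ) : 0 ≤ TS b y G n := PF_nonneg hb H _ n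

lemma dm_mono (hb : 2 ≤ b) (H : Data y G) {I J : Finset ι} (h : I ⊆ J) :
    Dm b (PF b y G I) (PX y G I) (PF b y G J) (PX y G J) := by
  have h1 := (dm_one_PF hb H (J \ I)).mul (dm_PF hb H I)
  have e1 : PF b y G (J \ I) * PF b y G I = PF b y G J := prod_sdiff h
  have e2 : PX y G (J \ I) * PX y G I = PX y G J := prod_sdiff h
  rwa [e1, e2, one_mul, one_mul] at h1

lemma TS_succ (m : ℕ) :
    TS b y G (m + 1) = b * TS b y G m - (coeff (m + 1) (PF b y G univ) : ℕ) := tl_succ _ _ _

lemma TG_le (hb : 2 ≤ b) (H : Data y G) {i : ι} {j : κ} (hj : j ∈ G i) (m : ℕ) :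
    TG b (y i j) (PF b y G (univ.erase i)) (PX y G (univ.erase i)) m ≤ TS b y G m := by
  have h1 := (dm_Fy hb (H.y0 i) (H.y1 i) hj).mul (dm_PF hb H (univ.erase i))
  have e1 : FS b (y i) (G i) * PF b y G (univ.erase i) = PF b y G univ :=
    mul_prod_erase univ (fun i => FS b (y i) (G i)) (mem_univ i)
  have e2 : XS (y i) (G i) * PX y G (univ.erase i) = PX y G univ :=
    mul_prod_erase univ (fun i => XS (y i) (G i)) (mem_univ i)
  rw [e1, e2] at h1
  exact h1.le m

lemma SF_PF (I : Finset ι) (n : ℕ) : SF (PF b y G I) n ≤ ∏ i ∈ I, KS b (y i) (G i) n := by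
  refine (SF_prod (fun i => FS b (y i) (G i)) I n).trans (le_of_eq ?_)
  exact prod_congr rfl fun i _ => SF_FS n

/-- the constant of the upper bound -/
noncomputable def MM (G : ι → Finset κ) : ℝ := ∏ i, (3 * ((G i).card : ℝ))

lemma one_le_MM (hne : ∀ i, (G i).Nonempty) (I : Finset ι) :
    1 ≤ ∏ i ∈ I, (3 * ((G i).card : ℝ)) := by
  have h : ∏ _i ∈ I, (1 : ℝ) ≤ ∏ i ∈ I, (3 * ((G i).card : ℝ)) :=
    prod_le_prod (fun _ _ => zero_le_one) fun i _ => by
      have h1 : (1 : ℝ) ≤ (G i).card := by exact_mod_cast (hne i).card_pos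
      linarith
  rwa [prod_const_one] at h

lemma PF_le (hb : 2 ≤ b) (H : Data y G) (I : Finset ι) (n : ℕ) :
    tl b (PF b y G I) (PX y G I) n ≤
      (∏ i ∈ I, (3 * ((G i).card : ℝ))) * ((∏ i ∈ I, KS b (y i) (G i) n : ℕ) : ℝ) := by
  induction I using Finset.induction_on with
  | empty =>
    unfold PF PX
    rw [prod_empty, prod_empty, tl_one]
    simp
  | insert a I ha ih =>
    have e1 : PF b y G (insert a I) = FS b (y a) (G a) * PF b y G I := prod_insert ha
    have e2 : PX y G (insert a I) = XS (y a) (G a) * PX y G I := prod_insert ha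
    rw [e1, e2, tl_mul, prod_insert ha, prod_insert ha]
    have hG1 : (1 : ℝ) ≤ (G a).card := by exact_mod_cast (H.ne a).card_pos
    set P : ℝ := ((∏ i ∈ I, KS b (y i) (G i) n : ℕ) : ℝ) with hP
    set M : ℝ := ∏ i ∈ I, (3 * ((G i).card : ℝ)) with hM
    have hM1 : 1 ≤ M := one_le_MM H.ne I
    have hP0 : 0 ≤ P := Nat.cast_nonneg _
    have h1 : ∑ p ∈ antidiagonal n, ((coeff p.1 (PF b y G I) : ℕ) : ℝ) *
        tl b (FS b (y a) (G a)) (XS (y a) (G a)) p.2 ≤ (G a).card * P := by
      calc ∑ p ∈ antidiagonal n, ((coeff p.1 (PF b y G I) : ℕ) : ℝ) *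
          tl b (FS b (y a) (G a)) (XS (y a) (G a)) p.2 ≤
          ∑ p ∈ antidiagonal n, ((coeff p.1 (PF b y G I) : ℕ) : ℝ) * (G a).card :=
            sum_le_sum fun p _ => mul_le_mul_of_nonneg_left
              (tl_FS_le hb (H.y0 a) (H.y1 a) _) (Nat.cast_nonneg _)
        _ = (G a).card * ((SF (PF b y G I) n : ℕ) : ℝ) := by
            rw [← sum_mul, mul_comm, SF, PowerSeries.coeff_mul]
            congr 1
            push_cast
            refine sum_congr rfl fun p _ => ?_
            rw [EE, PowerSeries.coeff_mk]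
            simp
        _ ≤ (G a).card * P := by
            refine mul_le_mul_of_nonneg_left ?_ (Nat.cast_nonneg _)
            rw [hP]
            exact_mod_cast SF_PF I n
    have h2 : XS (y a) (G a) * tl b (PF b y G I) (PX y G I) n ≤ (2 * (G a).card) * (M * P) := by
      refine mul_le_mul (XS_le (H.y1 a)) ih (PF_nonneg hb H I n) (by positivity)
    have h3 : (1 : ℝ) ≤ KS b (y a) (G a) n := by
      exact_mod_cast KS_pos (H.y0 a) (H.y1 a) (H.ne a) n
    have h4 : P ≤ M * P := le_mul_of_one_le_left hP0 hM1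
    have h5 : ((G a).card : ℝ) * P ≤ (G a).card * (M * P) :=
      mul_le_mul_of_nonneg_left h4 (by linarith)
    have h6 : 3 * ((G a).card : ℝ) * (M * P) ≤ 3 * ((G a).card : ℝ) * (M * P) * KS b (y a) (G a) n :=
      le_mul_of_one_le_right (by positivity) h3
    push_cast
    rw [hP] at *
    push_cast at *
    linarith

lemma PF_le' (hb : 2 ≤ b) (H : Data y G) (I : Finset ι) (n : ℕ) :
    tl b (PF b y G I) (PX y G I) n ≤ MM G * ((∏ i ∈ I, KS b (y i) (G i) n : ℕ) : ℝ) := by
  refine (PF_le hb H I n).trans (mul_le_mul_of_nonneg_right ?_ (Nat.cast_nonneg _))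
  have h1 : MM G = (∏ i ∈ univ \ I, (3 * ((G i).card : ℝ))) * ∏ i ∈ I, (3 * ((G i).card : ℝ)) :=
    (prod_sdiff (subset_univ I)).symm
  rw [h1]
  exact le_mul_of_one_le_left (by have := one_le_MM H.ne I; linarith) (one_le_MM H.ne _)

/-- combinations of products of fewer numbers are near to integers, up to the tails -/
theorem tame (hb : 2 ≤ b) (H : Data y G) {x : ℝ}
    (hx : x ∈ AddSubgroup.closure (PSet (fun i j => 1 + y i j) G)) :
    ∃ c : ℝ, 0 ≤ c ∧ ∀ m : ℕ, ∃ Z : ℤ, |x * (b : ℝ) ^ m - Z| ≤ c * ∑ i, VS b y G i m := by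
  have hV : ∀ m, 0 ≤ ∑ i, VS b y G i m := fun m => sum_nonneg fun i _ => VS_nonneg hb H i m
  induction hx using AddSubgroup.closure_induction with
  | mem x hx =>
    obtain ⟨I, hI, φ, hφ, rfl⟩ := hx
    refine ⟨1, zero_le_one, fun m => ⟨((coeff m ((∏ i ∈ I, Fy b (y i (φ i))) * EE b) : ℕ) : ℤ), ?_⟩⟩
    obtain ⟨i, hi⟩ : ∃ i, i ∉ I := by
      by_contra hcon
      push Not at hcon
      exact hI (eq_univ_iff_forall.2 hcon)
    have h1 : Dm b (∏ i ∈ I, Fy b (y i (φ i))) (∏ i ∈ I, (1 + y i (φ i))) (PF b y G I) (PX y G I) :=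
      Dm.prod I fun i hi => dm_Fy hb (H.y0 i) (H.y1 i) (hφ i hi)
    have h2 := dm_mono hb H (I := I) (J := univ.erase i) (fun j hj => by
      rw [mem_erase]
      exact ⟨fun h => hi (h ▸ hj), mem_univ _⟩)
    have h3 : (∏ i ∈ I, (1 + y i (φ i))) * (b : ℝ) ^ m -
        (((coeff m ((∏ i ∈ I, Fy b (y i (φ i))) * EE b) : ℕ) : ℤ) : ℝ) =
        tl b (∏ i ∈ I, Fy b (y i (φ i))) (∏ i ∈ I, (1 + y i (φ i))) m := by
      unfold tl
      push_cast
      rfl
    rw [h3, abs_of_nonneg (h1.nn m), one_mul]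
    refine (h1.le m).trans ((h2.le m).trans ?_)
    exact single_le_sum (f := fun i => VS b y G i m) (fun i _ => VS_nonneg hb H i m) (mem_univ i)
  | zero => exact ⟨0, le_rfl, fun m => ⟨0, by simp⟩⟩
  | add x y' _ _ ihx ihy =>
    obtain ⟨c, hc, h1⟩ := ihx
    obtain ⟨c', hc', h2⟩ := ihy
    refine ⟨c + c', by linarith, fun m => ?_⟩
    obtain ⟨Z, hZ⟩ := h1 m
    obtain ⟨Z', hZ'⟩ := h2 m
    refine ⟨Z + Z', ?_⟩
    push_cast
    calc |(x + y') * (b : ℝ) ^ m - (Z + Z')| = |(x * (b : ℝ) ^ m - Z) + (y' * (b : ℝ) ^ m - Z')| := by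
          ring_nf
      _ ≤ _ := (abs_add_le _ _).trans (by rw [add_mul]; exact add_le_add hZ hZ')
  | neg x _ ih =>
    obtain ⟨c, hc, h1⟩ := ih
    refine ⟨c, hc, fun m => ?_⟩
    obtain ⟨Z, hZ⟩ := h1 m
    refine ⟨-Z, ?_⟩
    push_cast
    rw [show -x * (b : ℝ) ^ m - -(Z : ℝ) = -(x * (b : ℝ) ^ m - Z) by ring, abs_neg]
    exact hZ

lemma exists_large (G : ι → Finset κ) [Nonempty ι] (m : ℕ) :
    ∃ i, ∑ j, VS b y G j m ≤ (Fintype.card ι : ℝ) * VS b y G i m := by
  obtain ⟨i, -, hi⟩ := exists_max_image univ (fun i => VS b y G i m) univ_nonempty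
  refine ⟨i, ?_⟩
  calc ∑ j, VS b y G j m ≤ ∑ _j : ι, VS b y G i m := sum_le_sum fun j hj => hi j hj
    _ = _ := by rw [sum_const, card_univ, nsmul_eq_mul]

/-- places with a small tail are exceptional for one of the factors -/
lemma bad_or (hb : 2 ≤ b) [Nonempty ι] (H : Data y G) (q : ℕ) (hq : 1 ≤ q) {c : ℝ} (hc : 0 ≤ c)
    (htame : ∀ m : ℕ, ∃ Z : ℤ, |(q : ℝ) * PX y G univ * (b : ℝ) ^ m - Z| ≤ c * ∑ i, VS b y G i m)
    {η : ℝ} (hη0 : 0 < η) (hη1 : η ≤ 1) (m : ℕ) (h : q * TS b y G m < 1 - η) :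
    ∃ i, TS b y G m ≤ (c * Fintype.card ι / η) * VS b y G i m ∨
      1 ≤ (c * Fintype.card ι / η) * VS b y G i m := by
  obtain ⟨i, hi⟩ := exists_large (b := b) (y := y) G m
  refine ⟨i, ?_⟩
  have hT := TS_nonneg hb H m
  have hV := VS_nonneg hb H i m
  have hU : c * ∑ i, VS b y G i m ≤ c * Fintype.card ι * VS b y G i m := by
    rw [mul_assoc]
    exact mul_le_mul_of_nonneg_left hi hc
  have h3 : 0 ≤ c * Fintype.card ι * VS b y G i m := by positivity
  rcases le_or_gt η (c * Fintype.card ι * VS b y G i m) with h1 | h1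
  · right
    rw [div_mul_eq_mul_div, le_div_iff₀ hη0]
    linarith
  · left
    obtain ⟨Z, hZ⟩ := htame m
    have hZ' : |(q : ℝ) * TS b y G m - (Z - q * (coeff m (PF b y G univ * EE b) : ℕ) : ℤ)| ≤
        c * Fintype.card ι * VS b y G i m := by
      refine le_trans (le_of_eq ?_) (hZ.trans hU)
      congr 1
      unfold TS tl
      push_cast
      ring
    set Y : ℤ := Z - q * (coeff m (PF b y G univ * EE b) : ℕ) with hY
    have h4 := abs_le.1 hZ'
    have hY1 : (Y : ℝ) < 1 := by linarith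
    have hY2 : Y < 1 := by exact_mod_cast hY1
    have hY3 : Y ≤ 0 := by omega
    have hY4 : (Y : ℝ) ≤ 0 := by exact_mod_cast hY3
    have hqR : (1 : ℝ) ≤ q := by exact_mod_cast hq
    have h5 : TS b y G m ≤ q * TS b y G m := le_mul_of_one_le_left hT hqR
    have h6 : TS b y G m ≤ c * Fintype.card ι * VS b y G i m := by linarith
    refine h6.trans ?_
    rw [div_mul_eq_mul_div, le_div_iff₀ hη0]
    exact mul_le_of_le_one_right h3 hη1

open Classical in
/-- few exceptional places, if the product of the digit sums is small -/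
theorem core (hb : 2 ≤ b) (hcard : 2 ≤ Fintype.card ι) (H : Data y G)
    (q : ℕ) (hq : 1 ≤ q)
    (hrel : (q : ℝ) * PX y G univ ∈ AddSubgroup.closure (PSet (fun i j => 1 + y i j) G))
    {η : ℝ} (hη0 : 0 < η) (hη1 : η ≤ 1) {C0 : ℝ} (hC0 : 0 ≤ C0) {δ : ℝ} (hδ : 0 < δ) :
    ∃ n0 : ℕ, ∀ n : ℕ, n0 ≤ n → ((∏ i, KS b (y i) (G i) n : ℕ) : ℝ) ≤ C0 * n →
      (((range n).filter (fun m => q * TS b y G m < 1 - η)).card : ℝ) ≤ δ * n ∧
      TS b y G n ≤ δ * n := by
  have hne : Nonempty ι := Fintype.card_pos_iff.1 (by omega)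
  have hb2 : (2 : ℝ) ≤ b := by exact_mod_cast hb
  obtain ⟨c₀, hc₀, htame⟩ := tame hb H hrel
  set D : ℝ := (Fintype.card ι : ℝ) with hD
  have hD1 : 1 ≤ D := by rw [hD]; exact_mod_cast (by omega : 1 ≤ Fintype.card ι)
  set c : ℝ := c₀ * D / η with hc
  have hc0 : 0 ≤ c := by positivity
  choose J hJ using H.ne
  -- the exceptional places for one factor
  set δ1 : ℝ := min (δ / (2 * D)) 1 with hδ1
  have hδ10 : 0 < δ1 := lt_min (by positivity) one_pos
  have hδ11 : δ1 ≤ 1 := min_le_right _ _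
  have hMM : 1 ≤ MM G := one_le_MM H.ne univ
  set g : ℝ := ∑ i, ((G i).card : ℝ) with hg
  have hgi : ∀ i, ((G i).card : ℝ) ≤ g := fun i =>
    single_le_sum (f := fun i => ((G i).card : ℝ)) (fun _ _ => Nat.cast_nonneg _) (mem_univ i)
  have hg0 : 0 ≤ g := sum_nonneg fun _ _ => Nat.cast_nonneg _
  have hone : ∀ i, ∃ C : ℝ, 0 ≤ C ∧ ∀ n : ℕ,
      (((range n).filter (fun m => TS b y G m ≤ c * VS b y G i m ∨
        1 ≤ c * VS b y G i m)).card : ℝ) ≤
        C * (1 + Real.log ((n : ℝ) + 1)) *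
          ((((range n).filter (fun m => 1 ≤ coeff m (PF b y G (univ.erase i)))).card : ℝ) + 1) +
          δ1 * n := by
    intro i
    obtain ⟨i1, hi1⟩ : ∃ i1, i1 ≠ i := by
      have : Nontrivial ι := Fintype.one_lt_card_iff_nontrivial.1 (by omega)
      exact exists_ne i
    obtain ⟨L1, hgap⟩ := gap hb (H.y0 i1 (J i1)) (H.alg i1 _ (hJ i1)) (H.irr i1 _ (hJ i1))
      (1 / 2) (by norm_num) (by norm_num)
    have h := card_gen hb (H.y0 i (J i)) (H.y1 i (J i)) (H.alg i _ (hJ i)) (H.irr i _ (hJ i))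
      (PF b y G (univ.erase i)) (PX y G (univ.erase i)) (by
        have := (dm_one_PF hb H (univ.erase i)).co 0
        rwa [PowerSeries.coeff_zero_one] at this)
      (fun n => PF_nonneg hb H _ n)
      (MM G * (g * b) ^ (univ.erase i).card) (univ.erase i).card (by
        intro n
        refine (PF_le' hb H (univ.erase i) n).trans ?_
        rw [mul_assoc]
        refine mul_le_mul_of_nonneg_left ?_ (by linarith)
        rw [← mul_pow]
        push_cast
        calc ∏ l ∈ univ.erase i, (KS b (y l) (G l) n : ℝ) ≤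
              ∏ l ∈ univ.erase i, (g * b * ((n : ℝ) + 1)) := by
              refine prod_le_prod (fun _ _ => Nat.cast_nonneg _) fun l _ => ?_
              unfold KS
              push_cast
              calc ∑ j ∈ G l, (KK b (y l j) n : ℝ) ≤ ∑ _j ∈ G l, ((b : ℝ) * (n + 1)) := by
                    refine sum_le_sum fun j _ => ?_
                    have h6 := KK_le (y := y l j) hb n
                    exact_mod_cast h6
                _ = (G l).card * ((b : ℝ) * (n + 1)) := by rw [sum_const, nsmul_eq_mul]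
                _ ≤ g * ((b : ℝ) * (n + 1)) :=
                    mul_le_mul_of_nonneg_right (hgi l) (by positivity)
                _ = _ := by ring
          _ = _ := by rw [prod_const]) L1 (by
        intro n hn
        obtain ⟨k, hk1, hk2, hk3⟩ := hgap n hn
        refine ⟨k, hk1, hk2, ?_⟩
        have h1 : Dm b (Fy b (y i1 (J i1))) (1 + y i1 (J i1)) (PF b y G {i1}) (PX y G {i1}) := by
          unfold PF PX
          rw [prod_singleton, prod_singleton]
          exact dm_Fy hb (H.y0 i1) (H.y1 i1) (hJ i1)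
        have h2 := dm_mono hb H (I := {i1}) (J := univ.erase i) (fun j hj => by
          rw [mem_singleton] at hj
          rw [hj, mem_erase]
          exact ⟨hi1, mem_univ _⟩)
        refine le_trans ?_ ((h1.co k).trans (h2.co k))
        rw [Fy, PowerSeries.coeff_mk]
        obtain ⟨k', rfl⟩ : ∃ k', k = k' + 1 := ⟨k - 1, by omega⟩
        rw [xx_succ]
        exact hk3) c hc0 δ1 hδ10 hδ11
    obtain ⟨C, hC, h2⟩ := h
    refine ⟨C, hC, fun n => le_trans ?_ (h2 n)⟩
    have h3 : (range n).filter (fun m => TS b y G m ≤ c * VS b y G i m ∨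
        1 ≤ c * VS b y G i m) ⊆ (range n).filter (fun m =>
        TG b (y i (J i)) (PF b y G (univ.erase i)) (PX y G (univ.erase i)) m ≤
          c * tl b (PF b y G (univ.erase i)) (PX y G (univ.erase i)) m ∨
        1 ≤ c * tl b (PF b y G (univ.erase i)) (PX y G (univ.erase i)) m) := by
      intro m hm
      obtain ⟨hm1, hm2⟩ := mem_filter.1 hm
      refine mem_filter.2 ⟨hm1, ?_⟩
      rcases hm2 with hm2 | hm2
      · left
        exact (TG_le hb H (hJ i) m).trans hm2
      · right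
        exact hm2
    exact_mod_cast card_le_card h3
  choose C hC hcnt using hone
  set Cm : ℝ := ∑ i, C i with hCm
  have hCm0 : 0 ≤ Cm := sum_nonneg fun i _ => hC i
  have hCi : ∀ i, C i ≤ Cm := fun i => single_le_sum (f := C) (fun i _ => hC i) (mem_univ i)
  -- growth of the digit sums
  set R : ℝ := Cm + 3 * g * MM G with hR
  have hg1 : 1 ≤ g := by
    obtain ⟨i⟩ := hne
    refine le_trans ?_ (hgi i)
    exact_mod_cast (H.ne i).card_pos
  have hR1 : 1 ≤ R := by
    have : 1 ≤ g * MM G := one_le_mul_of_one_le_of_one_le hg1 hMM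
    rw [hR]; linarith
  have hR0 : 0 < R := by linarith
  have hD0 : 0 < D := by linarith
  have hMM0 : 0 < MM G := by linarith
  have hgM : 0 ≤ 3 * g * MM G := mul_nonneg (mul_nonneg (by norm_num) hg0) hMM0.le
  generalize hMMe : MM G = μ at *
  clear_value R Cm g D
  set κ' : ℝ := δ / (2 * D * (R * 2 * (C0 + 1))) with hκ
  have hκ0 : 0 < κ' := by positivity
  have hKlog : ∀ i, ∃ n0 : ℕ, ∀ n : ℕ, n0 ≤ n →
      1 + Real.log ((n : ℝ) + 1) ≤ κ' * KK b (y i (J i)) n := fun i =>
    KK_log hb (H.y0 i (J i)) (H.y1 i (J i)) (H.alg i _ (hJ i)) (H.irr i _ (hJ i)) κ' hκ0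
  choose N0 hN0 using hKlog
  refine ⟨univ.sup N0, fun n hn hprod => ?_⟩
  have hn0 : (0 : ℝ) ≤ n := Nat.cast_nonneg _
  set ℓ : ℝ := 1 + Real.log ((n : ℝ) + 1) with hℓ
  have hℓ1 : 1 ≤ ℓ := by
    have := Real.log_nonneg (show (1 : ℝ) ≤ (n : ℝ) + 1 by linarith)
    linarith
  have hK : ∀ i, ℓ ≤ κ' * KS b (y i) (G i) n := fun i => by
    refine (hN0 i n ((le_sup (mem_univ i)).trans hn)).trans ?_
    refine mul_le_mul_of_nonneg_left ?_ hκ0.le
    have : KK b (y i (J i)) n ≤ KS b (y i) (G i) n :=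
      single_le_sum (f := fun j => KK b (y i j) n) (fun _ _ => Nat.zero_le _) (hJ i)
    exact_mod_cast this
  -- the product without one factor
  set Q : ι → ℝ := fun i => ((∏ j ∈ univ.erase i, KS b (y j) (G j) n : ℕ) : ℝ) with hQ
  have hQ1 : ∀ i, 1 ≤ Q i := fun i => by
    simp only [hQ]
    have : 1 ≤ ∏ j ∈ univ.erase i, KS b (y j) (G j) n :=
      Finset.one_le_prod' fun l _ => KS_pos (H.y0 l) (H.y1 l) (H.ne l) n
    exact_mod_cast this
  have hQ2 : ∀ i, ℓ * Q i ≤ κ' * (C0 * n) := by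
    intro i
    have h1 : ((∏ i, KS b (y i) (G i) n : ℕ) : ℝ) = KS b (y i) (G i) n * Q i := by
      simp only [hQ]
      rw [← mul_prod_erase univ _ (mem_univ i)]
      push_cast
      rfl
    calc ℓ * Q i ≤ κ' * KS b (y i) (G i) n * Q i :=
          mul_le_mul_of_nonneg_right (hK i) (by linarith [hQ1 i])
      _ = κ' * ((∏ i, KS b (y i) (G i) n : ℕ) : ℝ) := by rw [h1]; ring
      _ ≤ κ' * (C0 * n) := mul_le_mul_of_nonneg_left hprod hκ0.le
  constructor
  · have hsub : (range n).filter (fun m => (q : ℝ) * TS b y G m < 1 - η) ⊆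
        univ.biUnion fun i => (range n).filter (fun m => TS b y G m ≤ c * VS b y G i m ∨
          1 ≤ c * VS b y G i m) := by
      intro m hm
      obtain ⟨hm1, hm2⟩ := mem_filter.1 hm
      obtain ⟨i, hi⟩ := bad_or hb H q hq hc₀ htame hη0 hη1 m hm2
      rw [mem_biUnion]
      rw [← hD, ← hc] at hi
      exact ⟨i, mem_univ i, mem_filter.2 ⟨hm1, hi⟩⟩
    have h1 := (card_le_card hsub).trans card_biUnion_le
    have h2 : (((range n).filter (fun m => (q : ℝ) * TS b y G m < 1 - η)).card : ℝ) ≤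
        ∑ i, (((range n).filter (fun m => TS b y G m ≤ c * VS b y G i m ∨
          1 ≤ c * VS b y G i m)).card : ℝ) := by exact_mod_cast h1
    refine h2.trans ?_
    have h3 : ∀ i ∈ (univ : Finset ι), (((range n).filter (fun m => TS b y G m ≤
          c * VS b y G i m ∨ 1 ≤ c * VS b y G i m)).card : ℝ) ≤ δ / D * n := by
      intro i _
      refine (hcnt i n).trans ?_
      have h4 : ((((range n).filter (fun m => 1 ≤ coeff m (PF b y G (univ.erase i)))).card : ℝ) +
          1) ≤ 2 * Q i := by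
        have h5 : ((range n).filter (fun m => 1 ≤ coeff m (PF b y G (univ.erase i)))).card ≤
            ∏ j ∈ univ.erase i, KS b (y j) (G j) n := by
          refine le_trans ?_ (SF_PF (univ.erase i) n)
          rw [SF_eq, card_filter]
          refine le_trans (sum_le_sum (g := fun m => coeff m (PF b y G (univ.erase i)))
            fun m _ => ?_) (sum_le_sum_of_subset (range_mono (by omega)))
          split_ifs with h
          · exact h
          · exact Nat.zero_le _
        have h6 : (((range n).filter (fun m => 1 ≤ coeff m (PF b y G (univ.erase i)))).card : ℝ) ≤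
            Q i := by
          simp only [hQ]
          exact_mod_cast h5
        have := hQ1 i
        linarith
      have h5 : C i * ℓ * ((((range n).filter
          (fun m => 1 ≤ coeff m (PF b y G (univ.erase i)))).card : ℝ) + 1) ≤ δ / (2 * D) * n := by
        calc C i * ℓ * ((((range n).filter
              (fun m => 1 ≤ coeff m (PF b y G (univ.erase i)))).card : ℝ) + 1) ≤
              C i * ℓ * (2 * Q i) := mul_le_mul_of_nonneg_left h4 (mul_nonneg (hC i) (by linarith))
          _ = 2 * C i * (ℓ * Q i) := by ring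
          _ ≤ 2 * C i * (κ' * (C0 * n)) :=
              mul_le_mul_of_nonneg_left (hQ2 i) (by have := hC i; positivity)
          _ ≤ 2 * R * (κ' * ((C0 + 1) * n)) := by
              have h6 : C i ≤ R := by
                have := hCi i
                linarith
              gcongr
              linarith
          _ = δ / (2 * D) * n := by
              rw [hκ]
              exact arith1 R δ D C0 n (by linarith) (by linarith) (by linarith)
      have h6 : δ1 * n ≤ δ / (2 * D) * n := mul_le_mul_of_nonneg_right (min_le_left _ _) hn0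
      have h7 : δ / D * n = δ / (2 * D) * n + δ / (2 * D) * n := arith2 δ D n (by linarith)
      rw [h7]
      linarith
    refine (sum_le_sum h3).trans (le_of_eq ?_)
    rw [sum_const, card_univ, nsmul_eq_mul, ← hD]
    exact arith3 δ D n (by linarith)
  · obtain ⟨i⟩ := hne
    have e1 : FS b (y i) (G i) * PF b y G (univ.erase i) = PF b y G univ :=
      mul_prod_erase univ (fun i => FS b (y i) (G i)) (mem_univ i)
    have e2 : XS (y i) (G i) * PX y G (univ.erase i) = PX y G univ :=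
      mul_prod_erase univ (fun i => XS (y i) (G i)) (mem_univ i)
    unfold TS
    rw [← e1, ← e2, tl_mul]
    have h2 : ((SF (PF b y G (univ.erase i)) n : ℕ) : ℝ) ≤ Q i := by
      simp only [hQ]
      exact_mod_cast SF_PF (univ.erase i) n
    have h1 : ∑ p ∈ antidiagonal n, ((coeff p.1 (PF b y G (univ.erase i)) : ℕ) : ℝ) *
        tl b (FS b (y i) (G i)) (XS (y i) (G i)) p.2 ≤ (G i).card * Q i := by
      calc ∑ p ∈ antidiagonal n, ((coeff p.1 (PF b y G (univ.erase i)) : ℕ) : ℝ) *
          tl b (FS b (y i) (G i)) (XS (y i) (G i)) p.2 ≤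
          ∑ p ∈ antidiagonal n, ((coeff p.1 (PF b y G (univ.erase i)) : ℕ) : ℝ) * (G i).card :=
            sum_le_sum fun p _ => mul_le_mul_of_nonneg_left
              (tl_FS_le hb (H.y0 i) (H.y1 i) _) (Nat.cast_nonneg _)
        _ = (G i).card * ((SF (PF b y G (univ.erase i)) n : ℕ) : ℝ) := by
            rw [← sum_mul, mul_comm, SF, PowerSeries.coeff_mul]
            congr 1
            push_cast
            refine sum_congr rfl fun p _ => ?_
            rw [EE, PowerSeries.coeff_mk]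
            simp
        _ ≤ _ := mul_le_mul_of_nonneg_left h2 (Nat.cast_nonneg _)
    have h3 := PF_le' hb H (univ.erase i) n
    rw [hMMe] at h3
    have h5 : XS (y i) (G i) * tl b (PF b y G (univ.erase i)) (PX y G (univ.erase i)) n ≤
        (2 * (G i).card) * (μ * Q i) :=
      mul_le_mul (XS_le (H.y1 i)) h3 (PF_nonneg hb H _ n) (by positivity)
    have hQi := hQ1 i
    have h6 : ((G i).card : ℝ) * Q i + (2 * (G i).card) * (μ * Q i) ≤
        3 * g * μ * (ℓ * Q i) := by
      have q1 : ((G i).card : ℝ) * Q i ≤ g * (μ * (ℓ * Q i)) := by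
        have : Q i ≤ μ * (ℓ * Q i) := by
          have h8 : Q i ≤ ℓ * Q i := le_mul_of_one_le_left (by linarith) hℓ1
          exact h8.trans (le_mul_of_one_le_left (by nlinarith) hMM)
        exact mul_le_mul (hgi i) this (by linarith) hg0
      have q2 : (2 * ((G i).card : ℝ)) * (μ * Q i) ≤ 2 * (g * (μ * (ℓ * Q i))) := by
        have h8 : Q i ≤ ℓ * Q i := le_mul_of_one_le_left (by linarith) hℓ1
        have h9 : μ * Q i ≤ μ * (ℓ * Q i) := mul_le_mul_of_nonneg_left h8 (by linarith)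
        have h10 := mul_le_mul (hgi i) h9 (mul_nonneg (by linarith) (by linarith)) hg0
        linarith
      linarith
    calc ∑ p ∈ antidiagonal n, ((coeff p.1 (PF b y G (univ.erase i)) : ℕ) : ℝ) *
        tl b (FS b (y i) (G i)) (XS (y i) (G i)) p.2 +
          XS (y i) (G i) * tl b (PF b y G (univ.erase i)) (PX y G (univ.erase i)) n
        ≤ 3 * g * μ * (ℓ * Q i) := by linarith
      _ ≤ 3 * g * μ * (κ' * (C0 * n)) :=
          mul_le_mul_of_nonneg_left (hQ2 i) (by positivity)
      _ ≤ 2 * R * (κ' * ((C0 + 1) * n)) := by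
          have h8 : 3 * g * μ ≤ 2 * R := by
            rw [hR]
            linarith
          gcongr
          linarith
      _ = δ / (2 * D) * n := by
          rw [hκ]
          exact arith1 R δ D C0 n (by linarith) (by linarith) (by linarith)
      _ ≤ δ * n := by
          apply mul_le_mul_of_nonneg_right _ hn0
          rw [div_le_iff₀ (by positivity)]
          nlinarith

end

end Pool.Agent.H90.GR
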