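import Pool.Agent.H90.PR.Bad

/-!
# Domination of power series and their tails; sums of digit series
-/

set_option autoImplicit false
set_option linter.unusedSectionVars false

open Finset

namespace Pool.Agent.H90.GR

open Pool.Agent.H394R2.Ones Pool.Agent.H820R3.DG Pool.Agent.Helper161SP

open PowerSeries (coeff)

section
variable {b : ℕ}

/-- domination -/
structure Dm (b : ℕ) (F : PowerSeries ℕ) (x : ℝ) (F' : PowerSeries ℕ) (x' : ℝ) : Prop where
  co : ∀ n, coeff n F ≤ coeff n F'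
  nn : ∀ n, 0 ≤ tl b F x n
  le : ∀ n, tl b F x n ≤ tl b F' x' n
  x0 : 0 ≤ x
  xx : x ≤ x'

lemma Dm.mul {F F' G G' : PowerSeries ℕ} {x x' y y' : ℝ} (h : Dm b F x F' x')
    (k : Dm b G y G' y') : Dm b (F * G) (x * y) (F' * G') (x' * y') where
  co n := by
    rw [PowerSeries.coeff_mul, PowerSeries.coeff_mul]
    exact sum_le_sum fun p _ => Nat.mul_le_mul (h.co _) (k.co _)
  nn n := by
    rw [tl_mul]
    exact add_nonneg (sum_nonneg fun p _ => mul_nonneg (Nat.cast_nonneg _) (h.nn _))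
      (mul_nonneg h.x0 (k.nn n))
  le n := by
    rw [tl_mul, tl_mul]
    refine add_le_add (sum_le_sum fun p _ => ?_) ?_
    · exact mul_le_mul (by exact_mod_cast k.co p.1) (h.le _) (h.nn _) (Nat.cast_nonneg _)
    · exact mul_le_mul h.xx (k.le n) (k.nn n) (h.x0.trans h.xx)
  x0 := mul_nonneg h.x0 k.x0
  xx := mul_le_mul h.xx k.xx k.x0 (h.x0.trans h.xx)

lemma Dm.refl {F : PowerSeries ℕ} {x : ℝ} (hx : 0 ≤ x) (h : ∀ n, 0 ≤ tl b F x n) :
    Dm b F x F x where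
  co _ := le_rfl
  nn := h
  le _ := le_rfl
  x0 := hx
  xx := le_rfl

lemma Dm.one {F : PowerSeries ℕ} {x : ℝ} (hF : 1 ≤ coeff 0 F) (hx : 1 ≤ x)
    (h : ∀ n, 0 ≤ tl b F x n) : Dm b 1 1 F x where
  co n := by
    rw [PowerSeries.coeff_one]
    split_ifs with h0
    · subst h0; exact hF
    · exact Nat.zero_le _
  nn n := by rw [tl_one]
  le n := by rw [tl_one]; exact h n
  x0 := zero_le_one
  xx := hx

lemma Dm.prod {ι : Type} [DecidableEq ι] {F F' : ι → PowerSeries ℕ} {x x' : ι → ℝ} (I : Finset ι)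
    (h : ∀ i ∈ I, Dm b (F i) (x i) (F' i) (x' i)) :
    Dm b (∏ i ∈ I, F i) (∏ i ∈ I, x i) (∏ i ∈ I, F' i) (∏ i ∈ I, x' i) := by
  induction I using Finset.induction_on with
  | empty =>
    simp only [prod_empty]
    exact Dm.refl zero_le_one fun n => by rw [tl_one]
  | insert a I ha ih =>
    rw [prod_insert ha, prod_insert ha, prod_insert ha, prod_insert ha]
    exact (h a (mem_insert_self _ _)).mul (ih fun i hi => h i (mem_insert_of_mem hi))

lemma tl_zero_series (n : ℕ) : tl b 0 0 n = 0 := by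
  unfold tl
  simp

lemma tl_add (F G : PowerSeries ℕ) (x y : ℝ) (n : ℕ) :
    tl b (F + G) (x + y) n = tl b F x n + tl b G y n := by
  unfold tl
  rw [add_mul F G, map_add]
  push_cast
  ring

lemma tl_sumset {κ : Type} [DecidableEq κ] (F : κ → PowerSeries ℕ) (x : κ → ℝ) (G : Finset κ)
    (n : ℕ) : tl b (∑ j ∈ G, F j) (∑ j ∈ G, x j) n = ∑ j ∈ G, tl b (F j) (x j) n := by
  induction G using Finset.induction_on with
  | empty => rw [sum_empty, sum_empty, sum_empty, tl_zero_series]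
  | insert a G ha ih => rw [sum_insert ha, sum_insert ha, sum_insert ha, tl_add, ih]

variable {κ : Type} [DecidableEq κ]

/-- the sum of the digit series of the numbers `1 + y j`, `j ∈ G` -/
noncomputable def FS (b : ℕ) (y : κ → ℝ) (G : Finset κ) : PowerSeries ℕ := ∑ j ∈ G, Fy b (y j)

/-- the sum of the numbers `1 + y j` -/
noncomputable def XS (y : κ → ℝ) (G : Finset κ) : ℝ := ∑ j ∈ G, (1 + y j)

/-- the sum of the digit sums -/
noncomputable def KS (b : ℕ) (y : κ → ℝ) (G : Finset κ) (n : ℕ) : ℕ := ∑ j ∈ G, KK b (y j) n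

section
variable {y : κ → ℝ} {G : Finset κ}

lemma tl_FS (hb : 2 ≤ b) (hy0 : ∀ j, 0 < y j) (hy1 : ∀ j, y j < 1) (n : ℕ) :
    tl b (FS b y G) (XS y G) n = ∑ j ∈ G, ep b (y j) n := by
  unfold FS XS
  rw [tl_sumset]
  exact sum_congr rfl fun j _ => tl_Fy hb (hy0 j) (hy1 j) n

lemma tl_FS_nonneg (hb : 2 ≤ b) (hy0 : ∀ j, 0 < y j) (hy1 : ∀ j, y j < 1) (n : ℕ) :
    0 ≤ tl b (FS b y G) (XS y G) n := by
  rw [tl_FS hb hy0 hy1]
  exact sum_nonneg fun j _ => ep_nonneg (hy0 j) _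

lemma tl_FS_le (hb : 2 ≤ b) (hy0 : ∀ j, 0 < y j) (hy1 : ∀ j, y j < 1) (n : ℕ) :
    tl b (FS b y G) (XS y G) n ≤ G.card := by
  rw [tl_FS hb hy0 hy1]
  calc ∑ j ∈ G, ep b (y j) n ≤ ∑ _j ∈ G, (1 : ℝ) := sum_le_sum fun j _ => (ep_lt _).le
    _ = G.card := by simp

lemma coeff_FS (n : ℕ) : coeff n (FS b y G) = ∑ j ∈ G, xx b (y j) n := by
  unfold FS
  rw [map_sum]
  refine sum_congr rfl fun j _ => ?_
  rw [Fy, PowerSeries.coeff_mk]

lemma coeff_zero_FS : coeff 0 (FS b y G) = G.card := by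
  rw [coeff_FS]
  simp [xx_zero]

lemma le_XS (hy0 : ∀ j, 0 < y j) {j : κ} (hj : j ∈ G) : 1 + y j ≤ XS y G := by
  unfold XS
  exact single_le_sum (f := fun j => 1 + y j) (fun j _ => by have := hy0 j; linarith) hj

lemma XS_le (hy1 : ∀ j, y j < 1) : XS y G ≤ 2 * G.card := by
  unfold XS
  calc ∑ j ∈ G, (1 + y j) ≤ ∑ _j ∈ G, (2 : ℝ) := sum_le_sum fun j _ => by have := hy1 j; linarith
    _ = 2 * G.card := by simp [mul_comm]

lemma dm_Fy (hb : 2 ≤ b) (hy0 : ∀ j, 0 < y j) (hy1 : ∀ j, y j < 1) {j : κ} (hj : j ∈ G) :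
    Dm b (Fy b (y j)) (1 + y j) (FS b y G) (XS y G) where
  co n := by
    rw [coeff_FS, Fy, PowerSeries.coeff_mk]
    exact single_le_sum (f := fun j => xx b (y j) n) (fun _ _ => Nat.zero_le _) hj
  nn n := by
    rw [tl_Fy hb (hy0 j) (hy1 j)]
    exact ep_nonneg (hy0 j) _
  le n := by
    rw [tl_Fy hb (hy0 j) (hy1 j), tl_FS hb hy0 hy1]
    exact single_le_sum (f := fun j => ep b (y j) n) (fun j _ => ep_nonneg (hy0 j) _) hj
  x0 := by have := hy0 j; linarith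
  xx := le_XS hy0 hj

lemma dm_one (hb : 2 ≤ b) (hy0 : ∀ j, 0 < y j) (hy1 : ∀ j, y j < 1) (hG : G.Nonempty) :
    Dm b 1 1 (FS b y G) (XS y G) := by
  refine Dm.one ?_ ?_ (tl_FS_nonneg hb hy0 hy1)
  · rw [coeff_zero_FS]
    exact hG.card_pos
  · obtain ⟨j, hj⟩ := hG
    have h1 := le_XS hy0 hj
    have h2 := hy0 j
    linarith

lemma SF_FS (n : ℕ) : SF (FS b y G) n = KS b y G n := by
  rw [SF_eq]
  unfold KS KK
  simp only [coeff_FS]
  exact sum_comm

lemma KS_pos (hy0 : ∀ j, 0 < y j) (hy1 : ∀ j, y j < 1) (hG : G.Nonempty) (n : ℕ) :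
    1 ≤ KS b y G n := by
  obtain ⟨j, hj⟩ := hG
  exact (KK_pos (hy0 j) (hy1 j) n).trans
    (single_le_sum (f := fun j => KK b (y j) n) (fun _ _ => Nat.zero_le _) hj)

end

end

end Pool.Agent.H90.GR
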