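import Pool.Agent.H90.GR.Core

/-!
# The inequality for numbers in `(0, 1)`
-/

set_option autoImplicit false
set_option linter.unusedSectionVars false

open Finset

namespace Pool.Agent.H90.GR

open Pool.Agent.H394R2.Ones Pool.Agent.H820R3.DG Pool.Agent.Helper161SP Pool.Agent.H90.PR

open PowerSeries (coeff)

section
variable {b : ℕ} {ι κ : Type} [Fintype ι] [DecidableEq ι] [DecidableEq κ]

open Classical in
/-- the number of the places `1, …, n` at which one of the numbers has a nonzero digit -/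
noncomputable def cU (b : ℕ) (y : κ → ℝ) (G : Finset κ) (n : ℕ) : ℕ :=
  ((range n).filter (fun m => ∃ j ∈ G, x b (y j) (m + 1) ≠ 0)).card

open Classical in
/-- the indicator series -/
noncomputable def EG (b : ℕ) (y : κ → ℝ) (G : Finset κ) : PowerSeries ℕ :=
  PowerSeries.mk fun i => if ∃ j ∈ G, xx b (y j) i ≠ 0 then 1 else 0

lemma SF_EG (y : κ → ℝ) {G : Finset κ} (hG : G.Nonempty) (n : ℕ) :
    SF (EG b y G) n = cU b y G n + 1 := by
  classical
  rw [SF_eq, sum_range_succ']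
  unfold EG cU
  rw [PowerSeries.coeff_mk, if_pos (by
    obtain ⟨j, hj⟩ := hG
    exact ⟨j, hj, by rw [xx_zero]; exact one_ne_zero⟩), card_filter]
  congr 1
  refine sum_congr rfl fun i _ => ?_
  rw [PowerSeries.coeff_mk]
  simp only [xx_succ]

lemma xx_le_EG (hb : 2 ≤ b) (y : κ → ℝ) {G : Finset κ} {j : κ} (hj : j ∈ G) (i : ℕ) :
    xx b (y j) i ≤ (b - 1) * coeff i (EG b y G) := by
  unfold EG
  rw [PowerSeries.coeff_mk]
  by_cases h : xx b (y j) i = 0
  · rw [h]; omega
  · rw [if_pos ⟨j, hj, h⟩]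
    rcases Nat.eq_zero_or_pos i with h0 | h0
    · subst h0
      rw [xx_zero]
      omega
    · obtain ⟨k, rfl⟩ : ∃ k, i = k + 1 := ⟨i - 1, by omega⟩
      rw [xx_succ, mul_one]
      unfold Pool.Agent.H394R2.Ones.x
      have := Nat.mod_lt (B b (y j) (k + 1)) (show 0 < b by omega)
      omega

lemma coeff_FS_le (hb : 2 ≤ b) (y : κ → ℝ) (G : Finset κ) (i : ℕ) :
    coeff i (FS b y G) ≤ G.card * (b - 1) * coeff i (EG b y G) := by
  rw [coeff_FS]
  calc ∑ j ∈ G, xx b (y j) i ≤ ∑ _j ∈ G, (b - 1) * coeff i (EG b y G) :=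
        sum_le_sum fun j hj => xx_le_EG hb y hj i
    _ = _ := by rw [sum_const, smul_eq_mul]; ring

lemma KS_le (hb : 2 ≤ b) (y : κ → ℝ) {G : Finset κ} (hG : G.Nonempty) (n : ℕ) :
    KS b y G n ≤ G.card * (b - 1) * (cU b y G n + 1) := by
  rw [← SF_EG y hG, SF_eq, mul_sum, ← SF_FS, SF_eq]
  exact sum_le_sum fun i _ => coeff_FS_le hb y G i

lemma cnt_le_cU (y : κ → ℝ) {G : Finset κ} {j : κ} (hj : j ∈ G) (n : ℕ) :
    cnt b (y j) n ≤ cU b y G n := by
  classical
  unfold cnt cU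
  refine card_le_card fun m hm => ?_
  obtain ⟨h1, h2⟩ := mem_filter.1 hm
  exact mem_filter.2 ⟨h1, j, hj, h2⟩

lemma coeff_PF_le (hb : 2 ≤ b) (y : ι → κ → ℝ) (G : ι → Finset κ) (I : Finset ι) (m : ℕ) :
    coeff m (PF b y G I) ≤ (∏ i ∈ I, (G i).card * (b - 1)) *
      coeff m (∏ i ∈ I, EG b (y i) (G i)) := by
  induction I using Finset.induction_on generalizing m with
  | empty => unfold PF; simp
  | insert a I ha ih =>
    have h1 : PF b y G (insert a I) = FS b (y a) (G a) * PF b y G I := prod_insert ha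
    rw [h1, prod_insert ha, prod_insert ha, PowerSeries.coeff_mul,
      PowerSeries.coeff_mul, mul_sum]
    refine sum_le_sum fun p _ => ?_
    calc coeff p.1 (FS b (y a) (G a)) * coeff p.2 (PF b y G I) ≤
        ((G a).card * (b - 1) * coeff p.1 (EG b (y a) (G a))) *
          ((∏ i ∈ I, (G i).card * (b - 1)) * coeff p.2 (∏ i ∈ I, EG b (y i) (G i))) :=
          Nat.mul_le_mul (coeff_FS_le hb _ _ _) (ih p.2)
      _ = _ := by ring

/-- the theorem for numbers in `(0, 1)` -/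
theorem grpY (hb : 2 ≤ b) (hcard : 2 ≤ Fintype.card ι) {y : ι → κ → ℝ} {G : ι → Finset κ}
    (H : Data y G) (q : ℕ) (hq : 1 ≤ q) (hrelG : RelG q (fun i j => 1 + y i j) G)
    (L : ℕ) (hL1 : 1 ≤ L)
    (hL : q * (∏ i, (G i).card) * (b - 1) ^ (Fintype.card ι - 1) < b ^ L)
    {ε : ℝ} (hε : 0 < ε) :
    ∃ n0 : ℕ, ∀ n : ℕ, n0 ≤ n → (1 - ε) * n ≤ L * ∏ i, (cU b (y i) (G i) n : ℝ) := by
  classical
  have hrel : (q : ℝ) * PX y G univ ∈ AddSubgroup.closure (PSet (fun i j => 1 + y i j) G) :=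
    hrelG.sum
  have hb2 : (2 : ℝ) ≤ b := by exact_mod_cast hb
  have hb1 : 0 < (b : ℝ) - 1 := by linarith
  set D := Fintype.card ι with hD
  set g : ℕ := ∏ i, (G i).card with hg
  have hg1 : 1 ≤ g := Finset.one_le_prod' fun i _ => (H.ne i).card_pos
  set Q : ℕ := q * g with hQ
  have hQ1 : 1 ≤ Q := Nat.mul_pos hq hg1
  have hQR : (1 : ℝ) ≤ Q := by exact_mod_cast hQ1
  have hqR : (1 : ℝ) ≤ q := by exact_mod_cast hq
  have hgR : (1 : ℝ) ≤ g := by exact_mod_cast hg1
  have hQe : (Q : ℝ) = q * g := by rw [hQ]; push_cast; rfl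
  clear_value Q g D
  -- the parameters of the potential
  set w : ℝ := Q * ((b : ℝ) - 1) ^ D with hw
  have hw0 : 0 < w := by positivity
  have hbL : (2 : ℝ) ≤ (b : ℝ) ^ L := by
    calc (2 : ℝ) ≤ b := hb2
      _ = (b : ℝ) ^ 1 := (pow_one _).symm
      _ ≤ (b : ℝ) ^ L := pow_le_pow_right₀ (by linarith) hL1
  set η : ℝ := 1 / (b : ℝ) ^ L with hη
  have hη0 : 0 < η := by positivity
  have hη2 : η ≤ 1 / 2 := one_div_le_one_div_of_le (by norm_num) hbL
  have hwD : w / ((b : ℝ) - 1) = Q * ((b : ℝ) - 1) ^ (D - 1) := by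
    obtain ⟨d, hd⟩ : ∃ d, D = d + 1 := ⟨D - 1, by omega⟩
    rw [hw, hd, pow_succ, Nat.add_sub_cancel]
    field_simp
  have hw1 : (1 : ℝ) ≤ w / ((b : ℝ) - 1) := by
    rw [hwD]
    exact one_le_mul_of_one_le_of_one_le hQR (one_le_pow₀ (by linarith))
  have hwL : w ≤ ((b : ℝ) - 1) * ((b : ℝ) ^ L * (1 - η)) := by
    have h1 : Q * (b - 1) ^ (D - 1) + 1 ≤ b ^ L := hL
    have h2 : (((Q * (b - 1) ^ (D - 1) + 1 : ℕ)) : ℝ) ≤ ((b ^ L : ℕ) : ℝ) := by exact_mod_cast h1
    rw [Nat.cast_add, Nat.cast_mul, Nat.cast_pow, Nat.cast_sub (by omega)] at h2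
    push_cast at h2
    have h3 : (b : ℝ) ^ L * (1 - η) = (b : ℝ) ^ L - 1 := by
      rw [hη]; field_simp
    rw [h3]
    have h4 : w = ((b : ℝ) - 1) * (w / ((b : ℝ) - 1)) := by field_simp
    rw [h4, hwD]
    exact mul_le_mul_of_nonneg_left (by linarith) hb1.le
  -- the cost
  set k : ℕ → ℕ := fun m => coeff m (∏ i, EG b (y i) (G i)) with hk
  have hprodg : ∏ i, (G i).card * (b - 1) = g * (b - 1) ^ D := by
    rw [prod_mul_distrib, prod_const, card_univ, ← hD, ← hg]
  have hstep : ∀ m, (b : ℝ) * (q * TS b y G m) - w * k (m + 1) ≤ q * TS b y G (m + 1) := by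
    intro m
    rw [TS_succ]
    have h1 := coeff_PF_le hb y G univ (m + 1)
    rw [hprodg] at h1
    have h2 : ((coeff (m + 1) (PF b y G univ) : ℕ) : ℝ) ≤ g * ((b : ℝ) - 1) ^ D * k (m + 1) := by
      have h3 : ((coeff (m + 1) (PF b y G univ) : ℕ) : ℝ) ≤
          ((g * (b - 1) ^ D * coeff (m + 1) (∏ i, EG b (y i) (G i)) : ℕ) : ℝ) := by
        exact_mod_cast h1
      rw [Nat.cast_mul, Nat.cast_mul, Nat.cast_pow, Nat.cast_sub (by omega)] at h3
      push_cast at h3
      exact h3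
    have h3 := mul_le_mul_of_nonneg_left h2 (by linarith : (0 : ℝ) ≤ q)
    rw [hw, hQe]
    linarith
  have hL0 : (1 : ℝ) ≤ L := by exact_mod_cast hL1
  -- large counts
  choose J hJ using H.ne
  have hlarge : ∀ i, ∃ n0 : ℕ, ∀ n : ℕ, n0 ≤ n → (4 * D / ε : ℝ) ≤ cnt b (y i (J i)) n := fun i =>
    cnt_large hb (H.y0 i _) (H.y1 i _) (H.alg i _ (hJ i)) (H.irr i _ (hJ i)) _
  choose N1 hN1 using hlarge
  set δ : ℝ := ε / 8 with hδ
  have hδ0 : 0 < δ := by positivity
  obtain ⟨n0, hcore⟩ := core hb (by rw [← hD]; exact hcard) H q hq hrel hη0 (by linarith)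
    (C0 := g * (((b : ℝ) - 1) ^ D * 2 ^ D)) (by positivity) hδ0
  obtain ⟨n2, hn2⟩ := exists_nat_ge (8 * L / ε)
  refine ⟨max (max n0 n2) (univ.sup N1), fun n hn => ?_⟩
  have hnn0 : n0 ≤ n := (le_max_left _ _).trans ((le_max_left _ _).trans hn)
  have hnn2 : n2 ≤ n := (le_max_right _ _).trans ((le_max_left _ _).trans hn)
  have hnn1 : ∀ i, N1 i ≤ n := fun i =>
    (le_sup (mem_univ i)).trans ((le_max_right _ _).trans hn)
  have hnR : (0 : ℝ) ≤ n := Nat.cast_nonneg _
  by_contra hcon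
  push Not at hcon
  have hDpos : (0 : ℝ) < D := by exact_mod_cast (by omega : 0 < D)
  rcases le_or_gt 1 ε with hε1 | hε1
  · have h1 : (1 - ε) * n ≤ 0 := mul_nonpos_of_nonpos_of_nonneg (by linarith) hnR
    have h2 : 0 ≤ (L : ℝ) * ∏ i, (cU b (y i) (G i) n : ℝ) := by positivity
    linarith
  have hcl : ∀ i, (4 * D / ε : ℝ) ≤ cU b (y i) (G i) n := fun i => by
    refine (hN1 i n (hnn1 i)).trans ?_
    exact_mod_cast cnt_le_cU (b := b) (y i) (hJ i) n
  have h4D : (4 : ℝ) ≤ 4 * D / ε := by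
    rw [le_div_iff₀ hε]
    have : (1 : ℝ) ≤ D := by exact_mod_cast (by omega : 1 ≤ D)
    nlinarith
  set P : ℝ := ∏ i, (cU b (y i) (G i) n : ℝ) with hP
  have hP0 : 0 ≤ P := prod_nonneg fun _ _ => Nat.cast_nonneg _
  have hPn : P ≤ n := by
    have h1 : (1 : ℝ) * P ≤ L * P := mul_le_mul_of_nonneg_right hL0 hP0
    nlinarith
  -- the product of the digit sums
  have hprod : ((∏ i, KS b (y i) (G i) n : ℕ) : ℝ) ≤ (g * (((b : ℝ) - 1) ^ D * 2 ^ D)) * n := by
    push_cast
    calc ∏ i, (KS b (y i) (G i) n : ℝ) ≤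
          ∏ i, ((((G i).card : ℝ) * (((b : ℝ) - 1) * 2)) * (cU b (y i) (G i) n : ℝ)) := by
          refine prod_le_prod (fun _ _ => Nat.cast_nonneg _) fun i _ => ?_
          have h3 := KS_le hb (y i) (H.ne i) n
          have h4 : ((KS b (y i) (G i) n : ℕ) : ℝ) ≤
              (((G i).card * (b - 1) * (cU b (y i) (G i) n + 1) : ℕ) : ℝ) := by
            exact_mod_cast h3
          rw [Nat.cast_mul, Nat.cast_mul, Nat.cast_sub (by omega)] at h4
          push_cast at h4
          have h5 := hcl i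
          have h6 : (0 : ℝ) ≤ ((G i).card : ℝ) * ((b : ℝ) - 1) := by positivity
          have h7 : ((cU b (y i) (G i) n : ℝ) + 1) ≤ 2 * (cU b (y i) (G i) n : ℝ) := by linarith
          have h8 := mul_le_mul_of_nonneg_left h7 h6
          linarith
      _ = (g : ℝ) * (((b : ℝ) - 1) * 2) ^ D * P := by
          rw [prod_mul_distrib, prod_mul_distrib, prod_const, card_univ, ← hD, ← hP, hg]
          push_cast
          rfl
      _ ≤ (g : ℝ) * (((b : ℝ) - 1) * 2) ^ D * n :=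
          mul_le_mul_of_nonneg_left hPn (by positivity)
      _ = _ := by rw [mul_pow]
  obtain ⟨hbad, hT⟩ := hcore n hnn0 hprod
  -- the potential
  have hpot := pot_sum (b := (b : ℝ)) (θ := 1 - η) (w := w) (L := L) hb2 (by linarith) hw0
    (by linarith) hL1 hwL (T := fun m => q * TS b y G m) (k := k) hstep n
  have hsumk : ∑ m ∈ range n, k (m + 1) ≤ ∏ i, (cU b (y i) (G i) n + 1) := by
    calc ∑ m ∈ range n, k (m + 1) ≤ ∑ m ∈ range (n + 1), k m := by
          rw [sum_range_succ']; exact Nat.le_add_right _ _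
      _ = SF (∏ i, EG b (y i) (G i)) n := (SF_eq _ _).symm
      _ ≤ ∏ i, SF (EG b (y i) (G i)) n := SF_prod _ _ _
      _ = _ := prod_congr rfl fun i _ => SF_EG _ (H.ne i) _
  have hsumk' : ((∑ m ∈ range n, k (m + 1) : ℕ) : ℝ) ≤ (1 + ε / 2) * P := by
    have h1 : ((∑ m ∈ range n, k (m + 1) : ℕ) : ℝ) ≤ ∏ i, ((cU b (y i) (G i) n : ℝ) + 1) := by
      exact_mod_cast hsumk
    refine h1.trans ?_
    calc ∏ i, ((cU b (y i) (G i) n : ℝ) + 1) ≤
          ∏ i, ((1 + ε / (4 * D)) * (cU b (y i) (G i) n : ℝ)) := by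
          refine prod_le_prod (fun _ _ => by positivity) fun i _ => ?_
          have h2 := hcl i
          rw [div_le_iff₀ hε] at h2
          have h3 : 1 ≤ ε / (4 * D) * (cU b (y i) (G i) n : ℝ) := by
            rw [div_mul_eq_mul_div, le_div_iff₀ (by positivity)]
            linarith
          linarith
      _ = (1 + ε / (4 * D)) ^ D * P := by rw [prod_mul_distrib, prod_const, card_univ, ← hD]
      _ ≤ (1 + ε / 2) * P := by
          refine mul_le_mul_of_nonneg_right ?_ hP0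
          calc (1 + ε / (4 * D)) ^ D ≤ (Real.exp (ε / (4 * D))) ^ D := by
                refine pow_le_pow_left₀ (by positivity) ?_ _
                have := Real.add_one_le_exp (ε / (4 * (D : ℝ)))
                linarith
            _ = Real.exp (ε / 4) := by
                rw [← Real.exp_nat_mul]
                congr 1
                field_simp
            _ ≤ 1 + ε / 2 := by
                have h2 := Real.exp_bound_div_one_sub_of_interval (x := ε / 4) (by positivity)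
                  (by linarith)
                refine h2.trans ?_
                rw [div_le_iff₀ (by linarith)]
                nlinarith
  have hTn := TS_nonneg hb H n
  have hH := HH_le (b := (b : ℝ)) (θ := 1 - η) (w := w) (L := L) hb2 hw0
    (T := q * TS b y G n) (mul_nonneg (by linarith) hTn)
  have hHT : q * TS b y G n / w ≤ δ * n := by
    have h1 : q * TS b y G n / w ≤ TS b y G n := by
      rw [div_le_iff₀ hw0, hw, hQe]
      have h2 : (1 : ℝ) ≤ ((b : ℝ) - 1) ^ D := one_le_pow₀ (by linarith)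
      have h3 : (1 : ℝ) ≤ g * ((b : ℝ) - 1) ^ D := one_le_mul_of_one_le_of_one_le hgR h2
      have h4 : (q : ℝ) * TS b y G n * 1 ≤ q * TS b y G n * (g * ((b : ℝ) - 1) ^ D) :=
        mul_le_mul_of_nonneg_left h3 (by positivity)
      linarith
    exact h1.trans hT
  have hpotR : (n : ℝ) ≤ L * ((∑ m ∈ range n, k (m + 1) : ℕ) : ℝ) +
      HH (b : ℝ) (1 - η) w L (q * TS b y G n) +
      (((range n).filter (fun m => (q : ℝ) * TS b y G m < 1 - η)).card : ℝ) := by
    exact_mod_cast hpot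
  have h8L : (L : ℝ) ≤ δ * n := by
    have h1 : 8 * L / ε ≤ n := hn2.trans (by exact_mod_cast hnn2)
    rw [div_le_iff₀ hε] at h1
    rw [hδ]
    linarith
  have h9 : (n : ℝ) ≤ L * ((1 + ε / 2) * P) + 3 * (δ * n) := by
    have := mul_le_mul_of_nonneg_left hsumk' (by linarith : (0 : ℝ) ≤ L)
    linarith
  have h10 : L * ((1 + ε / 2) * P) < (1 + ε / 2) * ((1 - ε) * n) := by
    have : L * ((1 + ε / 2) * P) = (1 + ε / 2) * (L * P) := by ring
    rw [this]
    exact mul_lt_mul_of_pos_left hcon (by linarith)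
  have h11 : 3 * (δ * n) = 3 / 8 * ε * n := by rw [hδ]; ring
  rw [h11] at h9
  nlinarith [mul_nonneg hε.le hnR, mul_nonneg (mul_nonneg hε.le hε.le) hnR]

end

end Pool.Agent.H90.GR
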