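import Pool.Agent.H90.GR.Fin
import Pool.Agent.H90.GR.Alg
import Pool.Agent.H90.PR.Win

/-!
# Windows of columns of digits
-/

set_option autoImplicit false
set_option linter.unusedSectionVars false

open Finset

namespace Pool.Agent.H90.GR

open Pool.Agent.H394R2.Ones Pool.Agent.H90.PR

section
variable {κ : Type} [DecidableEq κ]

open Classical in
/-- the windows in which one of the numbers `α j`, `j ∈ G`, has a digit different from `v j` -/
noncomputable def wG (b : ℕ) (v : κ → ℤ) (α : κ → ℝ) (G : Finset κ) (t n : ℕ) : ℕ :=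
  ((Icc 1 (n + 1 - t)).filter (fun k => ∃ j ∈ G, ∃ i < t, dgt b (α j) (k + i) ≠ v j)).card

lemma wG_ge {b : ℕ} (hb : 2 ≤ b) {t : ℕ} (ht : 1 ≤ t) (α : κ → ℝ) (G : Finset κ) (M n : ℕ)
    (hM : t * M + t ≤ n) :
    ∑ s ∈ range t, cU (b ^ t) (fun j => Int.fract ((b : ℝ) ^ s * α j)) G M ≤
      wG b (fun _ => 0) α G t n := by
  classical
  unfold cU
  rw [← card_sigma]
  unfold wG
  refine card_le_card_of_injOn (fun p : (Σ _ : ℕ, ℕ) => p.1 + t * p.2 + 1) ?_ ?_
  · intro p hp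
    simp only [coe_sigma, Set.mem_sigma_iff, mem_coe, mem_range, mem_filter] at hp
    simp only [coe_filter, Set.mem_ofPred_eq, mem_Icc]
    obtain ⟨h3, h4, j, hj, h5⟩ := hp
    refine ⟨⟨by omega, ?_⟩, j, hj, ?_⟩
    · have h6 : t * (p.2 + 1) ≤ t * M := Nat.mul_le_mul_left _ (by omega)
      rw [mul_add, mul_one] at h6
      omega
    · rw [ne_eq, block hb ht p.1 p.2] at h5
      push Not at h5
      obtain ⟨i, hi, h6⟩ := h5
      exact ⟨i, hi, h6⟩
  · intro p hp p' hp' h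
    simp only [coe_sigma, Set.mem_sigma_iff, mem_coe, mem_range] at hp hp'
    simp only at h
    have h3 : p.1 + t * p.2 = p'.1 + t * p'.2 := by omega
    have h4 : (p.1 + t * p.2) % t = (p'.1 + t * p'.2) % t := by rw [h3]
    rw [Nat.add_mul_mod_self_left, Nat.add_mul_mod_self_left, Nat.mod_eq_of_lt hp.1,
      Nat.mod_eq_of_lt hp'.1] at h4
    have h5 : t * p.2 = t * p'.2 := by omega
    have h6 : p.2 = p'.2 := Nat.eq_of_mul_eq_mul_left (by omega) h5
    obtain ⟨a, c⟩ := p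
    obtain ⟨a', c'⟩ := p'
    simp only at h4 h6
    rw [h4, h6]

variable {ι : Type} [Fintype ι] [DecidableEq ι]

/-- the theorem for the digit zero -/
theorem main_zero {b : ℕ} (hb : 2 ≤ b) (hcard : 2 ≤ Fintype.card ι) (α : κ → ℝ)
    (halg : ∀ j, IsAlgebraic ℚ (α j)) (hirr : ∀ j, Irrational (α j)) (G : ι → Finset κ)
    (hG : ∀ i, (G i).Nonempty) (q : ℕ) (hq : 1 ≤ q) (hrel : RelG q (fun _ j => α j) G)
    (t : ℕ) (ht : 1 ≤ t) (L : ℕ) (hL1 : 1 ≤ L)
    (hL : q * (∏ i, (G i).card) * (b ^ t - 1) ^ (Fintype.card ι - 1) < b ^ (t * L))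
    {ε : ℝ} (hε : 0 < ε) :
    ∃ n0 : ℕ, ∀ n : ℕ, n0 ≤ n →
      (1 - ε) * ((t : ℝ) ^ (Fintype.card ι - 1) * n) ≤
        L * ∏ i, (wG b (fun _ => 0) α (G i) t n : ℝ) := by
  classical
  have hbt : 2 ≤ b ^ t := by
    calc 2 ≤ b := hb
      _ = b ^ 1 := (pow_one b).symm
      _ ≤ b ^ t := Nat.pow_le_pow_right (by omega) ht
  set D := Fintype.card ι with hD
  have htR : (1 : ℝ) ≤ t := by exact_mod_cast ht
  -- one choice of the offsets
  have hone : ∀ f : ι → ℕ, ∃ n0 : ℕ, ∀ n : ℕ, n0 ≤ n →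
      (1 - ε / 2) * n ≤
        L * ∏ i, (cU (b ^ t) (fun j => Int.fract ((b : ℝ) ^ f i * α j)) (G i) n : ℝ) := by
    intro f
    have hirr' : ∀ i j, Irrational ((b : ℝ) ^ f i * α j) := fun i j => by
      have h1 : Irrational (((b ^ f i : ℕ) : ℝ) * α j) := (hirr j).natCast_mul (by positivity)
      push_cast at h1
      exact h1
    have halg' : ∀ i j, IsAlgebraic ℚ ((b : ℝ) ^ f i * α j) := fun i j => by
      refine IsAlgebraic.mul ?_ (halg j)
      have h1 : ((b : ℝ) ^ f i) = algebraMap ℚ ℝ ((b : ℚ) ^ f i) := by simp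
      rw [h1]
      exact isAlgebraic_algebraMap _
    have hr1 : RelG q (fun i j => (b : ℝ) ^ f i * α j) G := by
      have h1 := hrel.scale (fun i => ((b : ℤ) ^ f i))
      push_cast at h1
      exact h1
    have hr2 : RelG q (fun i j => 1 + Int.fract ((b : ℝ) ^ f i * α j)) G := by
      refine hr1.shift (fun i j => ⌊(b : ℝ) ^ f i * α j⌋ - 1) fun i j => ?_
      have := Int.floor_add_fract ((b : ℝ) ^ f i * α j)
      push_cast
      linarith
    have H : Data (fun i j => Int.fract ((b : ℝ) ^ f i * α j)) G :=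
      { ne := hG
        y0 := fun i j => (fract_facts (hirr' i j)).1
        y1 := fun i j => (fract_facts (hirr' i j)).2.1
        alg := fun i j _ => fract_alg (halg' i j)
        irr := fun i j _ => (fract_facts (hirr' i j)).2.2 }
    refine grpY (b := b ^ t) hbt (by rw [← hD]; exact hcard) H q hq hr2 L hL1 ?_ (by positivity)
    rw [← hD, ← pow_mul]
    exact hL
  choose N hN using hone
  set N0 : ℕ := (Fintype.piFinset fun _ : ι => range t).sup N with hN0
  obtain ⟨n2, hn2⟩ := exists_nat_ge (4 * t / ε)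
  refine ⟨max (t * (N0 + 2)) n2, fun n hn => ?_⟩
  have hn1' : t * (N0 + 2) ≤ n := (le_max_left _ _).trans hn
  have hn2' : (4 * t / ε : ℝ) ≤ n := hn2.trans (by exact_mod_cast (le_max_right _ _).trans hn)
  have hnR : (0 : ℝ) ≤ n := Nat.cast_nonneg _
  have hLR : (1 : ℝ) ≤ L := by exact_mod_cast hL1
  rcases le_or_gt 1 ε with hε1 | hε1
  · have h1 : (1 - ε) * ((t : ℝ) ^ (D - 1) * n) ≤ 0 :=
      mul_nonpos_of_nonpos_of_nonneg (by linarith) (by positivity)
    have h2 : 0 ≤ (L : ℝ) * ∏ i, (wG b (fun _ => 0) α (G i) t n : ℝ) := by positivity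
    linarith
  set M : ℕ := n / t - 1 with hM
  have hdiv : N0 + 2 ≤ n / t := by
    rw [Nat.le_div_iff_mul_le (by omega), mul_comm]
    exact hn1'
  have hMt : t * M + t = t * (n / t) := by
    obtain ⟨a, ha⟩ : ∃ a, n / t = a + 1 := ⟨n / t - 1, by omega⟩
    rw [hM, ha, Nat.add_sub_cancel]
    ring
  have hMn : t * M + t ≤ n := by
    have h1 : t * (n / t) ≤ n := Nat.mul_div_le _ _
    omega
  have hMn2 : n ≤ t * M + 2 * t := by
    have h1 : n < t * (n / t) + t := Nat.lt_mul_div_succ _ (by omega)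
    omega
  have hMN : N0 ≤ M := by omega
  -- the product
  have h1 : ∑ f ∈ Fintype.piFinset (fun _ : ι => range t),
      ∏ i, (cU (b ^ t) (fun j => Int.fract ((b : ℝ) ^ f i * α j)) (G i) M : ℝ) ≤
        ∏ i, (wG b (fun _ => 0) α (G i) t n : ℝ) := by
    rw [← prod_univ_sum (fun _ : ι => range t)
      (fun i s => (cU (b ^ t) (fun j => Int.fract ((b : ℝ) ^ s * α j)) (G i) M : ℝ))]
    refine prod_le_prod (fun i _ => sum_nonneg fun _ _ => Nat.cast_nonneg _) fun i _ => ?_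
    have h2 := wG_ge hb ht α (G i) M n hMn
    exact_mod_cast h2
  have h2 : ∑ _f ∈ Fintype.piFinset (fun _ : ι => range t), (1 - ε / 2) * (M : ℝ) ≤
      L * ∑ f ∈ Fintype.piFinset (fun _ : ι => range t),
      ∏ i, (cU (b ^ t) (fun j => Int.fract ((b : ℝ) ^ f i * α j)) (G i) M : ℝ) := by
    rw [mul_sum]
    refine sum_le_sum fun f hf => hN f M ?_
    exact le_trans (le_sup (f := N) hf) hMN
  rw [sum_const, Fintype.card_piFinset, prod_const, card_range, card_univ, nsmul_eq_mul,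
    ← hD] at h2
  push_cast at h2
  have h3 : (1 - ε) * ((t : ℝ) ^ (D - 1) * n) ≤ (t : ℝ) ^ D * ((1 - ε / 2) * M) := by
    obtain ⟨d, hd⟩ : ∃ d, D = d + 1 := ⟨D - 1, by omega⟩
    rw [hd, Nat.add_sub_cancel, pow_succ]
    have h4 : (n : ℝ) ≤ t * M + 2 * t := by exact_mod_cast hMn2
    have h5 : (1 - ε / 2) * (n : ℝ) ≤ t * M := by
      rw [div_le_iff₀ hε] at hn2'
      linarith
    have h6 : (1 - ε) * (n : ℝ) ≤ (1 - ε / 2) * (t * M) := by
      have h7 : (1 - ε / 2) * ((1 - ε / 2) * (n : ℝ)) ≤ (1 - ε / 2) * (t * M) :=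
        mul_le_mul_of_nonneg_left h5 (by linarith)
      have h8 : (1 - ε) * (n : ℝ) ≤ (1 - ε / 2) * ((1 - ε / 2) * (n : ℝ)) := by
        nlinarith [mul_nonneg (mul_nonneg hε.le hε.le) hnR]
      linarith
    calc (1 - ε) * ((t : ℝ) ^ d * n) = (t : ℝ) ^ d * ((1 - ε) * n) := by ring
      _ ≤ (t : ℝ) ^ d * ((1 - ε / 2) * (t * M)) :=
          mul_le_mul_of_nonneg_left h6 (by positivity)
      _ = _ := by ring
  have h4 := mul_le_mul_of_nonneg_left h1 (by linarith : (0 : ℝ) ≤ L)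
  linarith

/-- the theorem -/
theorem main_grp {b : ℕ} (hb : 2 ≤ b) (hcard : 2 ≤ Fintype.card ι) (α : κ → ℝ)
    (halg : ∀ j, IsAlgebraic ℚ (α j)) (hirr : ∀ j, Irrational (α j)) (G : ι → Finset κ)
    (hG : ∀ i, (G i).Nonempty) (q : ℕ) (hq : 1 ≤ q) (hrel : RelG q (fun _ j => α j) G)
    (v : κ → ℤ) (hv : ∀ j, v j = 0 ∨ v j = b - 1)
    (t : ℕ) (ht : 1 ≤ t) (L : ℕ)
    (hL : q * (∏ i, (G i).card) * (b ^ t - 1) ^ (Fintype.card ι - 1) < b ^ (t * L))
    {ε : ℝ} (hε : 0 < ε) :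
    ∃ n0 : ℕ, ∀ n : ℕ, n0 ≤ n →
      (1 - ε) * ((t : ℝ) ^ (Fintype.card ι - 1) * n) ≤ L * ∏ i, (wG b v α (G i) t n : ℝ) := by
  classical
  have hL1 : 1 ≤ L := by
    rcases Nat.eq_zero_or_pos L with h | h
    · exfalso
      rw [h, mul_zero, pow_zero] at hL
      have hbt : 2 ≤ b ^ t := by
        calc 2 ≤ b := hb
          _ = b ^ 1 := (pow_one b).symm
          _ ≤ b ^ t := Nat.pow_le_pow_right (by omega) ht
      have h2 : 1 ≤ (b ^ t - 1) ^ (Fintype.card ι - 1) := Nat.one_le_pow _ _ (by omega)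
      have h3 : 1 ≤ ∏ i, (G i).card := Finset.one_le_prod' fun i _ => (hG i).card_pos
      have h4 : 1 * 1 * 1 ≤ q * (∏ i, (G i).card) * (b ^ t - 1) ^ (Fintype.card ι - 1) :=
        Nat.mul_le_mul (Nat.mul_le_mul hq h3) h2
      omega
    · exact h
  set σ : κ → ℤ := fun i => if v i = 0 then 1 else -1 with hσ
  have hσ' : ∀ i, (v i = 0 ∧ σ i = 1) ∨ (v i = b - 1 ∧ σ i = -1) := by
    intro i
    simp only [hσ]
    by_cases h : v i = 0
    · exact Or.inl ⟨h, by rw [if_pos h]⟩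
    · exact Or.inr ⟨(hv i).resolve_left h, by rw [if_neg h]⟩
  have h := main_zero hb hcard (fun i => (σ i : ℝ) * α i) (fun i => ?_) (fun i => ?_) G hG q hq
    (hrel.sign (fun _ j => σ j) fun _ j => ?_) t ht L hL1 hL hε
  · obtain ⟨n0, h0⟩ := h
    refine ⟨n0, fun n hn => ?_⟩
    have h1 := h0 n hn
    have h2 : ∀ i, wG b (fun _ => 0) (fun i => (σ i : ℝ) * α i) (G i) t n =
        wG b v α (G i) t n := by
      intro i
      unfold wG
      congr 1
      refine filter_congr fun k _ => ?_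
      refine exists_congr fun j => and_congr_right fun _ => exists_congr fun l =>
        and_congr_right fun _ => ?_
      show dgt b ((σ j : ℝ) * α j) (k + l) ≠ 0 ↔ dgt b (α j) (k + l) ≠ v j
      rcases hσ' j with ⟨h3, h4⟩ | ⟨h3, h4⟩
      · rw [h4, h3, Int.cast_one, one_mul]
      · rw [h4, h3, Int.cast_neg, Int.cast_one, neg_one_mul, dgt_neg hb (hirr j)]
        constructor <;> intro h5 h6 <;> apply h5 <;> linarith
    simp only [h2] at h1
    exact h1
  · rcases hσ' i with ⟨-, h4⟩ | ⟨-, h4⟩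
    · simp only [h4, Int.cast_one, one_mul]; exact halg i
    · simp only [h4, Int.cast_neg, Int.cast_one, neg_one_mul]; exact (halg i).neg
  · rcases hσ' i with ⟨-, h4⟩ | ⟨-, h4⟩
    · simp only [h4, Int.cast_one, one_mul]; exact hirr i
    · simp only [h4, Int.cast_neg, Int.cast_one, neg_one_mul]; exact (hirr i).neg
  · rcases hσ' j with ⟨-, h4⟩ | ⟨-, h4⟩
    · exact Or.inl h4
    · exact Or.inr h4

end

end Pool.Agent.H90.GR
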